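import Mathlib

/-!
# Project AM: the class Av(3142) of permutations is 2-amalgamable (problem MP_d55b77_co, Q1, full answer)

Points have rational coordinates `x` (position) and `y` (value).  Two finite configurations live on
one index type `J`, told apart by `side : J → Bool`; the coordinates `x y` are compared within one
side only, the merged coordinates `X Y` on all of `J`.
-/

namespace Pool.Agent.U591.AM

/-- the points `i j p q` form the pattern 3142: `i` is the 3, `j` the 1, `p` the 4, `q` the 2 -/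
def pat {J : Type} (x y : J → ℚ) (i j p q : J) : Prop :=
  x i < x j ∧ x j < x p ∧ x p < x q ∧ y j < y q ∧ y q < y i ∧ y i < y p

/-- no pattern 3142 among the points of `T` (all four related by `R`) -/
def Av {J : Type} (R : J → J → Prop) (T : Finset J) (x y : J → ℚ) : Prop :=
  ∀ i ∈ T, ∀ j ∈ T, ∀ p ∈ T, ∀ q ∈ T, R i j → R i p → R i q → ¬ pat x y i j p q

/-- every `z ∈ Z` is a good bottom cut of `T`: a point at the column of `z`, below all points of `T`,
is not the 1 of a pattern 3142 with three points `i p q` of `T` -/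
def Cut {J : Type} (R : J → J → Prop) (T Z : Finset J) (x y : J → ℚ) : Prop :=
  ∀ z ∈ Z, ∀ i ∈ T, ∀ p ∈ T, ∀ q ∈ T, R z i → R z p → R z q →
    ¬ (x i < x z ∧ x z < x p ∧ x p < x q ∧ y q < y i ∧ y i < y p)

/-- `X` orders the points of `T` of each side as `x` does -/
def Pres {J : Type} (side : J → Bool) (T : Finset J) (x X : J → ℚ) : Prop :=
  ∀ u ∈ T, ∀ v ∈ T, side u = side v → (x u < x v ↔ X u < X v)

/-- Package P1: one marked point on each side, with bottom cuts `Z` -/
def S_P1 : Prop := ∀ (J : Type) [DecidableEq J] (side : J → Bool) (x y : J → ℚ) (S Z : Finset J)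
    (m : Bool → J),
  Disjoint S Z → (∀ b, m b ∈ S) → (∀ b, side (m b) = b) →
  (∀ u ∈ S ∪ Z, ∀ v ∈ S ∪ Z, side u = side v → x u = x v → u = v) →
  (∀ u ∈ S, ∀ v ∈ S, side u = side v → y u = y v → u = v) →
  Av (fun u v => side u = side v) S x y → Cut (fun u v => side u = side v) S Z x y →
  ∃ X Y : J → ℚ, Pres side (S ∪ Z) x X ∧ Pres side S y Y ∧
    X (m false) = X (m true) ∧ Y (m false) = Y (m true) ∧
    (∀ u ∈ S ∪ Z, ∀ v ∈ S ∪ Z, side u ≠ side v → X u = X v → u = m (side u) ∧ v = m (side v)) ∧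
    (∀ u ∈ S, ∀ v ∈ S, side u ≠ side v → Y u = Y v → u = m (side u) ∧ v = m (side v)) ∧
    Av (fun _ _ => True) S X Y ∧ Cut (fun _ _ => True) S Z X Y

/-- Four queues in a cycle.  An element `e` of class `c e : ZMod 4` enters on line `c e` at `s e` and
leaves on line `c e + 1` at `f e`.  `A`: active elements, `B`: sources (only `f` matters). -/
structure ZOK {J : Type} [DecidableEq J] (c : J → ZMod 4) (R : J → J → Prop) (s f : J → ℚ)
    (A B : Finset J) : Prop where
  z1 : ∀ b ∈ B, ∀ a ∈ A, c a = c b → R a b → f b < f a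
  z2 : ∀ e ∈ A, ∀ e' ∈ A, ∀ x ∈ A ∪ B, c e = c e' → c e = c x + 1 → R e e' → R e x →
    s e < f x → f x < s e' → f e < f e'
  z3 : ∀ e0 ∈ A, ∀ e1 ∈ A, ∀ e2 ∈ A, ∀ e3 ∈ A, c e1 = c e0 + 1 → c e2 = c e1 + 1 → c e3 = c e2 + 1 →
    R e0 e1 → R e0 e2 → R e0 e3 → ¬ (f e0 < s e1 ∧ f e1 < s e2 ∧ f e2 < s e3 ∧ f e3 < s e0)
  z4 : ∀ e1 ∈ A, ∀ e2 ∈ A, ∀ e3 ∈ A, ∀ e4 ∈ A, c e2 = c e1 → c e3 = c e1 → c e4 = c e1 →
    R e1 e2 → R e1 e3 → R e1 e4 →
    ¬ (f e1 < f e2 ∧ f e2 < f e3 ∧ f e3 < f e4 ∧ s e2 < s e4 ∧ s e4 < s e1 ∧ s e1 < s e3)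
  z5 : ∀ e1 ∈ A, ∀ e2 ∈ A, ∀ e3 ∈ A, ∀ p ∈ A, c e2 = c e1 → c e3 = c e1 → c p = c e1 + 1 →
    R e1 e2 → R e1 e3 → R e1 p →
    ¬ (f e1 < s p ∧ s p < f e2 ∧ f e2 < f e3 ∧ s e3 < s e1 ∧ s e1 < s e2)

/-- Package Z: merging of two systems of queues with prescribed places `pos` of the sources -/
def S_Z : Prop := ∀ (J : Type) [DecidableEq J] (c : J → ZMod 4) (side : J → Bool) (s f : J → ℚ)
    (A B : Finset J) (pos : J → ℚ),
  Disjoint A B →
  (∀ e ∈ A, ∀ e' ∈ A, side e = side e' → c e = c e' → s e = s e' → e = e') →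
  (∀ x ∈ A ∪ B, ∀ x' ∈ A ∪ B, side x = side x' → c x = c x' → f x = f x' → x = x') →
  (∀ e ∈ A, ∀ x ∈ A ∪ B, side e = side x → c e = c x + 1 → s e ≠ f x) →
  (∀ b ∈ B, ∀ b' ∈ B, c b = c b' → pos b = pos b' → b = b') →
  (∀ b ∈ B, ∀ b' ∈ B, side b = side b' → c b = c b' → (f b < f b' ↔ pos b < pos b')) →
  ZOK c (fun u v => side u = side v) s f A B →
  ∃ S F : J → ℚ,
    (∀ b ∈ B, F b = pos b) ∧
    -- the order of the events of each side on each line is kept
    (∀ e ∈ A, ∀ e' ∈ A, side e = side e' → c e = c e' → (s e < s e' ↔ S e < S e')) ∧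
    (∀ x ∈ A ∪ B, ∀ x' ∈ A ∪ B, side x = side x' → c x = c x' → (f x < f x' ↔ F x < F x')) ∧
    (∀ e ∈ A, ∀ x ∈ A ∪ B, side e = side x → c e = c x + 1 → (f x < s e ↔ F x < S e)) ∧
    -- all events on a line are distinct
    (∀ e ∈ A, ∀ e' ∈ A, c e = c e' → S e = S e' → e = e') ∧
    (∀ x ∈ A ∪ B, ∀ x' ∈ A ∪ B, c x = c x' → F x = F x' → x = x') ∧
    (∀ e ∈ A, ∀ x ∈ A ∪ B, c e = c x + 1 → S e ≠ F x) ∧
    -- early entries: after a cutter of the other side comes a cutter of the own side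
    (∀ e ∈ A, ∀ x ∈ A ∪ B, c e = c x + 1 → side x ≠ side e → F x < S e →
      ∃ x' ∈ A ∪ B, c x' = c x ∧ side x' = side e ∧ F x < F x' ∧ F x' < S e) ∧
    -- elements of one class and different sides leave as they enter
    (∀ e ∈ A, ∀ e' ∈ A, side e ≠ side e' → c e = c e' → (S e < S e' ↔ F e < F e')) ∧
    ZOK c (fun _ _ => True) S F A B

/-- the classes of the points with respect to a marked pair `a` (lower left) and `c` (upper right) -/
inductive K where
  | A | M | C | AT | CB | LT | RT | LB | RB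
  deriving DecidableEq

/-- rank of the column of a class -/
def colr : K → ℕ
  | .LT => 0 | .LB => 0 | .A => 1 | .AT => 1 | .M => 2 | .C => 3 | .CB => 3 | .RT => 4 | .RB => 4

/-- rank of the row of a class -/
def rowr : K → ℕ
  | .CB => 0 | .LB => 0 | .RB => 0 | .A => 1 | .M => 2 | .C => 3 | .AT => 4 | .LT => 4 | .RT => 4

/-- the canonical form of a configuration without 3142 with a marked pair -/
structure V {J : Type} (R : J → J → Prop) (k : J → K) (x y : J → ℚ) : Prop where
  cols : ∀ u v, R u v → colr (k u) < colr (k v) → x u < x v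
  rows : ∀ u v, R u v → rowr (k u) < rowr (k v) → y u < y v
  av : ∀ i j p q, k j = k i → k p = k i → k q = k i → R i j → R i p → R i q → ¬ pat x y i j p q
  cutA : ∀ i j p q, k i = .A → k j = .A → k p = .AT → k q = .A → R i j → R i p → R i q →
    ¬ pat x y i j p q
  cutC : ∀ i j p q, k i = .C → k j = .CB → k p = .C → k q = .C → R i j → R i p → R i q →
    ¬ pat x y i j p q
  sepA : ∀ u w v, k u = .AT → k w = .A → k v = .AT → R u w → R u v → x u < x w → x w < x v → y v < y u
  sepC : ∀ u w v, k u = .CB → k w = .C → k v = .CB → R u w → R u v → x u < x w → x w < x v → y v < y u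
  z1T : ∀ u v, k u = .AT → k v = .LT → R u v → y u < y v
  z1B : ∀ u v, k u = .RB → k v = .CB → R u v → y u < y v
  z2RT : ∀ u w v, k u = .RT → (k w = .AT ∨ k w = .LT) → k v = .RT → R u w → R u v →
    y u < y w → y w < y v → x u < x v
  z2RB : ∀ u w v, k u = .RB → k w = .RT → k v = .RB → R u w → R u v →
    x u < x w → x w < x v → y v < y u
  z2LB : ∀ u w v, k u = .LB → (k w = .CB ∨ k w = .RB) → k v = .LB → R u w → R u v →
    y u < y w → y w < y v → x u < x v
  z2LT : ∀ u w v, k u = .LT → k w = .LB → k v = .LT → R u w → R u v →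
    x u < x w → x w < x v → y v < y u
  z3 : ∀ i j p q, k i = .LT → k j = .LB → k p = .RT → k q = .RB → R i j → R i p → R i q →
    ¬ pat x y i j p q
  cutRT : ∀ i j p q, k i = .RT → k j = .RB → k p = .RT → k q = .RT → R i j → R i p → R i q →
    ¬ pat x y i j p q
  cutRB : ∀ i j p q, k i = .LB → k j = .RB → k p = .RB → k q = .RB → R i j → R i p → R i q →
    ¬ pat x y i j p q
  cutLB : ∀ i j p q, k i = .LB → k j = .LB → k p = .LT → k q = .LB → R i j → R i p → R i q →
    ¬ pat x y i j p q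
  cutLT : ∀ i j p q, k i = .LT → k j = .LT → k p = .LT → k q = .RT → R i j → R i p → R i q →
    ¬ pat x y i j p q
  grpA : ∀ i j p q, k i = .AT → k j = .AT → k p = .AT → k q = .RT → R i j → R i p → R i q →
    ¬ pat x y i j p q
  grpC : ∀ i j p q, k i = .LB → k j = .CB → k p = .CB → k q = .CB → R i j → R i p → R i q →
    ¬ pat x y i j p q

/-- Package V: the canonical form has no pattern 3142 -/
def S_V : Prop := ∀ (J : Type) (k : J → K) (x y : J → ℚ), V (fun _ _ => True) k x y →
  ∀ i j p q, ¬ pat x y i j p q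

/-- Package D: every configuration without 3142 (on each side) has the canonical form -/
def S_D : Prop := ∀ (J : Type) [Fintype J] [DecidableEq J] (side : J → Bool) (x y : J → ℚ)
    (a c : Bool → J),
  (∀ b, side (a b) = b) → (∀ b, side (c b) = b) →
  (∀ b, x (a b) < x (c b)) → (∀ b, y (a b) < y (c b)) →
  (∀ u v, side u = side v → x u = x v → u = v) →
  (∀ u v, side u = side v → y u = y v → u = v) →
  Av (fun u v => side u = side v) Finset.univ x y →
  ∃ k : J → K, (∀ b, k (a b) = .A) ∧ (∀ b, k (c b) = .C) ∧ V (fun u v => side u = side v) k x y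

/-- merged coordinates with the points `m false t`, `m true t` identified, no 3142 -/
def Merged {J : Type} [Fintype J] (side : J → Bool) (x y : J → ℚ) {n : ℕ} (m : Bool → Fin n → J) :
    Prop :=
  ∃ X Y : J → ℚ, Pres side Finset.univ x X ∧ Pres side Finset.univ y Y ∧
    (∀ t, X (m false t) = X (m true t) ∧ Y (m false t) = Y (m true t)) ∧
    (∀ u v, side u ≠ side v → X u = X v → ∃ t, u = m (side u) t ∧ v = m (side v) t) ∧
    (∀ u v, side u ≠ side v → Y u = Y v → ∃ t, u = m (side u) t ∧ v = m (side v) t) ∧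
    ∀ i j p q, ¬ pat X Y i j p q

/-- Package M: merging of two canonical forms -/
def S_M : Prop := ∀ (J : Type) [Fintype J] [DecidableEq J] (side : J → Bool) (x y : J → ℚ)
    (k : J → K) (a c : Bool → J),
  (∀ b, side (a b) = b) → (∀ b, side (c b) = b) → (∀ b, k (a b) = .A) → (∀ b, k (c b) = .C) →
  (∀ u v, side u = side v → x u = x v → u = v) →
  (∀ u v, side u = side v → y u = y v → u = v) →
  V (fun u v => side u = side v) k x y →
  ∃ X Y : J → ℚ, Pres side Finset.univ x X ∧ Pres side Finset.univ y Y ∧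
    X (a false) = X (a true) ∧ Y (a false) = Y (a true) ∧
    X (c false) = X (c true) ∧ Y (c false) = Y (c true) ∧
    (∀ u v, side u ≠ side v → X u = X v →
      (u = a (side u) ∧ v = a (side v)) ∨ (u = c (side u) ∧ v = c (side v))) ∧
    (∀ u v, side u ≠ side v → Y u = Y v →
      (u = a (side u) ∧ v = a (side v)) ∨ (u = c (side u) ∧ v = c (side v))) ∧
    V (fun _ _ => True) k X Y

/-- the increasing pairs -/
def S_T2 : Prop := ∀ (J : Type) [Fintype J] [DecidableEq J] (side : J → Bool) (x y : J → ℚ)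
    (m : Bool → Fin 2 → J),
  (∀ b t, side (m b t) = b) → (∀ b, x (m b 0) < x (m b 1)) → (∀ b, y (m b 0) < y (m b 1)) →
  (∀ u v, side u = side v → x u = x v → u = v) →
  (∀ u v, side u = side v → y u = y v → u = v) →
  Av (fun u v => side u = side v) Finset.univ x y → Merged side x y m

/-- the single points -/
def S_T1 : Prop := ∀ (J : Type) [Fintype J] [DecidableEq J] (side : J → Bool) (x y : J → ℚ)
    (m : Bool → Fin 1 → J),
  (∀ b t, side (m b t) = b) →
  (∀ u v, side u = side v → x u = x v → u = v) →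
  (∀ u v, side u = side v → y u = y v → u = v) →
  Av (fun u v => side u = side v) Finset.univ x y → Merged side x y m

/-! ## the final theorem -/

/-- permutations of all sizes; `π.2 i` is the value at position `i` -/
abbrev Pm := Σ n : ℕ, Equiv.Perm (Fin n)

/-- `f` is an embedding of `α` into `π` -/
structure IsEmbedding (α π : Pm) (f : Fin α.1 → Fin π.1) : Prop where
  pos : ∀ i j, i < j ↔ f i < f j
  val : ∀ i j, α.2 i < α.2 j ↔ π.2 (f i) < π.2 (f j)

/-- `α` is a pattern of `π` -/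
def Pattern (α π : Pm) : Prop := ∃ f, IsEmbedding α π f

/-- permutation classes -/
def IsClass (C : Set Pm) : Prop := ∀ π ∈ C, ∀ α, Pattern α π → α ∈ C

/-- the permutations without a pattern in `B` -/
def Avoiders (B : Set Pm) : Set Pm := {π | ∀ β ∈ B, ¬ Pattern β π}

/-- `C` is `α`-amalgamable -/
def Amalgamable (C : Set Pm) (α : Pm) : Prop :=
  ∀ π ∈ C, ∀ σ ∈ C, ∀ f g, IsEmbedding α π f → IsEmbedding α σ g →
    ∃ τ ∈ C, ∃ f' g', IsEmbedding π τ f' ∧ IsEmbedding σ τ g' ∧ f' ∘ f = g' ∘ g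

/-- `C` is `k`-amalgamable -/
def KAmalgamable (k : ℕ) (C : Set Pm) : Prop := ∀ α ∈ C, α.1 ≤ k → Amalgamable C α

/-- the permutation with values `v` -/
def mk4 (v w : Fin 4 → Fin 4) (h : ∀ i, w (v i) = i) (h' : ∀ i, v (w i) = i) : Pm :=
  ⟨4, ⟨v, w, h, h'⟩⟩

/-- 3142 -/
def p3142 : Pm := mk4 ![2, 0, 3, 1] ![1, 3, 0, 2] (by decide) (by decide)

/-- 2413 -/
def p2413 : Pm := mk4 ![1, 3, 0, 2] ![2, 0, 3, 1] (by decide) (by decide)

/-- the conclusion: Av(3142) is a 2-amalgamable class, neither contained in Sep nor everything -/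
def Goal : Prop :=
  IsClass (Avoiders {p3142}) ∧ KAmalgamable 2 (Avoiders {p3142}) ∧
    ¬ Avoiders {p3142} ⊆ Avoiders {p2413, p3142} ∧ Avoiders {p3142} ≠ Set.univ

/-- Package F: from coordinates to permutations -/
def S_F : Prop := S_T2 → S_T1 → Goal

end Pool.Agent.U591.AM
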