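import Mathlib
import Pool.Agent.U591.AM.Stm

namespace Pool.Agent.U591.AM

/-- strictly increasing map of `ℚ` into `(lo, hi)` -/
def sq (lo hi t : ℚ) : ℚ := lo + (hi - lo) * ((1 + t / (1 + |t|)) / 2)

theorem sq_aux (t : ℚ) : -1 < t / (1 + |t|) ∧ t / (1 + |t|) < 1 := by
  have h0 : 0 < 1 + |t| := by positivity
  constructor
  · rw [lt_div_iff₀ h0]
    have := neg_abs_le t
    linarith
  · rw [div_lt_one h0]
    have := le_abs_self t
    linarith

theorem sq_lo {lo hi : ℚ} (h : lo < hi) (t : ℚ) : lo < sq lo hi t := by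
  have h1 := (sq_aux t).1
  unfold sq
  have h2 : 0 < (hi - lo) * ((1 + t / (1 + |t|)) / 2) := by
    apply mul_pos (by linarith); linarith
  linarith

theorem sq_hi {lo hi : ℚ} (h : lo < hi) (t : ℚ) : sq lo hi t < hi := by
  have h1 := (sq_aux t).2
  unfold sq
  have h2 : (hi - lo) * ((1 + t / (1 + |t|)) / 2) < (hi - lo) * 1 := by
    apply mul_lt_mul_of_pos_left _ (by linarith); linarith
  linarith

theorem sq_aux2 {s t : ℚ} (h : s < t) : s / (1 + |s|) < t / (1 + |t|) := by
  have h0 : 0 < 1 + |s| := by positivity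
  have h1 : 0 < 1 + |t| := by positivity
  rw [div_lt_div_iff₀ h0 h1]
  rcases le_total 0 s with hs | hs <;> rcases le_total 0 t with ht | ht
  · rw [abs_of_nonneg hs, abs_of_nonneg ht]; nlinarith
  · linarith
  · rw [abs_of_nonpos hs, abs_of_nonneg ht]; nlinarith
  · rw [abs_of_nonpos hs, abs_of_nonpos ht]; nlinarith

theorem sq_mono {lo hi : ℚ} (h : lo < hi) {s t : ℚ} (hst : s < t) : sq lo hi s < sq lo hi t := by
  unfold sq
  have := sq_aux2 hst
  have h2 : (hi - lo) * ((1 + s / (1 + |s|)) / 2) < (hi - lo) * ((1 + t / (1 + |t|)) / 2) := by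
    apply mul_lt_mul_of_pos_left _ (by linarith); linarith
  linarith

theorem sq_iff {lo hi : ℚ} (h : lo < hi) {s t : ℚ} : sq lo hi s < sq lo hi t ↔ s < t := by
  constructor
  · intro h1
    by_contra h2
    rcases eq_or_lt_of_le (not_lt.mp h2) with h3 | h3
    · rw [h3] at h1; exact lt_irrefl _ h1
    · exact absurd (sq_mono h h3) (not_lt.mpr h1.le)
  · exact sq_mono h

theorem sq_inj {lo hi : ℚ} (h : lo < hi) {s t : ℚ} (he : sq lo hi s = sq lo hi t) : s = t := by
  rcases lt_trichotomy s t with h1 | h1 | h1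
  · exact absurd he (ne_of_lt (sq_mono h h1))
  · exact h1
  · exact absurd he (ne_of_gt (sq_mono h h1))

/-- the cutters `u`, `v` are in one group: same side, no point of `S` of this side between them -/
def Grp {J : Type} (side : J → Bool) (S : Finset J) (x : J → ℚ) (u v : J) : Prop :=
  side u = side v ∧ ∀ w ∈ S, side w = side u → (x w < x u ↔ x w < x v)

theorem Grp.symm {J : Type} {side : J → Bool} {S : Finset J} {x : J → ℚ} {u v : J}
    (h : Grp side S x u v) : Grp side S x v u :=
  ⟨h.1.symm, fun w hw hs => (h.2 w hw (hs.trans h.1.symm)).symm⟩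

theorem Grp.trans {J : Type} {side : J → Bool} {S : Finset J} {x : J → ℚ} {u v w : J}
    (h : Grp side S x u v) (h' : Grp side S x v w) : Grp side S x u w :=
  ⟨h.1.trans h'.1, fun t ht hs => (h.2 t ht hs).trans (h'.2 t ht (hs.trans h.1))⟩

theorem Grp.refl {J : Type} (side : J → Bool) (S : Finset J) (x : J → ℚ) (u : J) :
    Grp side S x u u := ⟨rfl, fun _ _ _ => Iff.rfl⟩

def S_G : Prop := ∀ (J : Type) [DecidableEq J] (side : J → Bool) (x y : J → ℚ) (S W : Finset J)
    (m : Bool → J),
  Disjoint S W → (∀ b, m b ∈ S) → (∀ b, side (m b) = b) →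
  (∀ u ∈ S ∪ W, ∀ v ∈ S ∪ W, side u = side v → x u = x v → u = v) →
  (∀ u ∈ S, ∀ v ∈ S, side u = side v → y u = y v → u = v) →
  (∀ u ∈ W, ∀ v ∈ W, side u = side v → y u = y v → u = v) →
  Av (fun u v => side u = side v) S x y → Cut (fun u v => side u = side v) S W x y →
  (∀ u ∈ W, ∀ w ∈ S, ∀ v ∈ W, side w = side u → side v = side u → x u < x w → x w < x v →
    y v < y u) →
  ∃ X Y pos : J → ℚ, Pres side (S ∪ W) x X ∧ Pres side S y Y ∧
    X (m false) = X (m true) ∧ Y (m false) = Y (m true) ∧
    (∀ u ∈ S ∪ W, ∀ v ∈ S ∪ W, side u ≠ side v → X u = X v → u = m (side u) ∧ v = m (side v)) ∧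
    (∀ u ∈ S, ∀ v ∈ S, side u ≠ side v → Y u = Y v → u = m (side u) ∧ v = m (side v)) ∧
    Av (fun _ _ => True) S X Y ∧ Cut (fun _ _ => True) S W X Y ∧
    (∀ u ∈ W, ∀ v ∈ W, pos u = pos v → u = v) ∧
    (∀ u ∈ W, ∀ v ∈ W, side u = side v → (y v < y u ↔ pos u < pos v)) ∧
    (∀ u ∈ W, ∀ v ∈ W, Grp side S x u v → X u < X v → ∀ w ∈ S ∪ W, X u < X w → X w < X v →
      w ∈ W ∧ side w = side u) ∧
    (∀ u ∈ W, ∀ v ∈ W, X u < X v → pos v < pos u → Grp side S x u v)

theorem pres_of_imp {J : Type} {side : J → Bool} {T : Finset J} {x X : J → ℚ}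
    (hinj : ∀ u ∈ T, ∀ v ∈ T, side u = side v → x u = x v → u = v)
    (h : ∀ u ∈ T, ∀ v ∈ T, side u = side v → x u < x v → X u < X v) : Pres side T x X := by
  intro u hu v hv hs
  constructor
  · exact h u hu v hv hs
  · intro h1
    by_contra h2
    rcases eq_or_lt_of_le (not_lt.mp h2) with h3 | h3
    · have := hinj v hv u hu hs.symm h3
      rw [this] at h1; exact lt_irrefl _ h1
    · exact absurd (h v hv u hu hs.symm h3) (not_lt.mpr h1.le)

/-- rank of `h` among the values of `X` on `T` -/
def rk {J : Type} [DecidableEq J] (T : Finset J) (X : J → ℚ) (h : ℚ) : ℚ :=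
  ((T.filter (fun v => X v < h)).card : ℚ)

theorem rk_le {J : Type} [DecidableEq J] (T : Finset J) (X : J → ℚ) {g h : ℚ} (hgh : g ≤ h) :
    rk T X g ≤ rk T X h := by
  unfold rk
  have : (T.filter (fun v => X v < g)).card ≤ (T.filter (fun v => X v < h)).card := by
    apply Finset.card_le_card
    intro v hv
    rw [Finset.mem_filter] at hv ⊢
    exact ⟨hv.1, hv.2.trans_le hgh⟩
  exact_mod_cast this

theorem rk_lt {J : Type} [DecidableEq J] (T : Finset J) (X : J → ℚ) {u : J} (hu : u ∈ T) {h : ℚ}
    (hgh : X u < h) : rk T X (X u) + 1 ≤ rk T X h := by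
  unfold rk
  have : (T.filter (fun v => X v < X u)).card < (T.filter (fun v => X v < h)).card := by
    apply Finset.card_lt_card
    constructor
    · intro v hv
      rw [Finset.mem_filter] at hv ⊢
      exact ⟨hv.1, hv.2.trans hgh⟩
    · intro hc
      have := hc (Finset.mem_filter.mpr ⟨hu, hgh⟩)
      rw [Finset.mem_filter] at this
      exact lt_irrefl _ this.2
  have h2 : (T.filter (fun v => X v < X u)).card + 1 ≤ (T.filter (fun v => X v < h)).card := this
  exact_mod_cast h2

open Classical in
theorem t_G (hP : S_P1) : S_G := by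
  intro J _ side x y S W m hdis hm hms hx hyS hyW hav hcut hsep
  set G := Grp side S x with hG
  -- representatives
  have hrep : ∀ u : J, ∃ r : J, (u ∈ W → r ∈ W ∧ G u r ∧ ∀ v ∈ W, G u v → x r ≤ x v) ∧
      (u ∉ W → r = u) := by
    intro u
    by_cases hu : u ∈ W
    · obtain ⟨r, hr, hmin⟩ := Finset.exists_min_image (W.filter (fun v => G u v)) x
        ⟨u, Finset.mem_filter.mpr ⟨hu, Grp.refl _ _ _ _⟩⟩
      rw [Finset.mem_filter] at hr
      exact ⟨r, fun _ => ⟨hr.1, hr.2, fun v hv hg => hmin v (Finset.mem_filter.mpr ⟨hv, hg⟩)⟩,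
        fun h => absurd hu h⟩
    · exact ⟨u, fun h => absurd h hu, fun _ => rfl⟩
  choose rep hrep1 hrep2 using hrep
  have hrepS : ∀ u ∈ S, rep u = u := fun u hu =>
    hrep2 u (fun h => (Finset.disjoint_left.mp hdis) hu h)
  have hside : ∀ u, side (rep u) = side u := by
    intro u
    by_cases hu : u ∈ W
    · exact (hrep1 u hu).2.1.1.symm
    · rw [hrep2 u hu]
  have hrepeq : ∀ u ∈ W, ∀ v ∈ W, G u v → rep u = rep v := by
    intro u hu v hv hg
    obtain ⟨a1, a2, a3⟩ := hrep1 u hu
    obtain ⟨b1, b2, b3⟩ := hrep1 v hv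
    have e1 : x (rep u) ≤ x (rep v) := a3 _ b1 (hg.trans b2)
    have e2 : x (rep v) ≤ x (rep u) := b3 _ a1 (hg.symm.trans a2)
    exact hx _ (Finset.mem_union_right _ a1) _ (Finset.mem_union_right _ b1)
      (by rw [hside, hside]; exact hg.1) (le_antisymm e1 e2)
  have hrepG : ∀ u ∈ W, ∀ v ∈ W, rep u = rep v → G u v := by
    intro u hu v hv he
    have h1 := (hrep1 u hu).2.1
    have h2 := (hrep1 v hv).2.1
    rw [← he] at h2
    exact h1.trans h2.symm
  set Z := W.filter (fun u => rep u = u) with hZ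
  have hrepZ : ∀ u ∈ W, rep u ∈ Z := by
    intro u hu
    obtain ⟨a1, a2, a3⟩ := hrep1 u hu
    rw [hZ, Finset.mem_filter]
    exact ⟨a1, (hrepeq u hu _ a1 a2).symm⟩
  have hZW : Z ⊆ W := Finset.filter_subset _ _
  have hSZ : S ∪ Z ⊆ S ∪ W := Finset.union_subset_union_right hZW
  obtain ⟨X0, Y0, pX, pY, mX, mY, dX, dY, aS, cS⟩ := hP J side x y S Z m
    (Finset.disjoint_of_subset_right hZW hdis) hm hms
    (fun u hu v hv => hx u (hSZ hu) v (hSZ hv)) hyS hav
    (fun z hz i hi p hp q hq => hcut z (hZW hz) i hi p hp q hq)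
  have hr : ∀ u ∈ S ∪ W, rep u ∈ S ∪ Z := by
    intro u hu
    rcases Finset.mem_union.mp hu with h | h
    · rw [hrepS u h]; exact Finset.mem_union_left _ h
    · exact Finset.mem_union_right _ (hrepZ u h)
  -- distinctness of X0
  have hdist : ∀ u ∈ S ∪ Z, ∀ v ∈ S ∪ Z, X0 u = X0 v → u = v ∨ (u ∈ S ∧ v ∈ S) := by
    intro u hu v hv he
    by_cases hs : side u = side v
    · left
      have h1 : ¬ x u < x v := fun h => absurd ((pX u hu v hv hs).mp h) (by rw [he]; exact lt_irrefl _)
      have h2 : ¬ x v < x u := fun h =>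
        absurd ((pX v hv u hu hs.symm).mp h) (by rw [he]; exact lt_irrefl _)
      exact hx u (hSZ hu) v (hSZ hv) hs (le_antisymm (not_lt.mp h2) (not_lt.mp h1))
    · right
      obtain ⟨h1, h2⟩ := dX u hu v hv hs he
      exact ⟨by rw [h1]; exact hm _, by rw [h2]; exact hm _⟩
  set R := rk (S ∪ Z) X0 with hR
  let off : J → ℚ := fun u => if u ∈ W then sq (-1/2) (1/2) (x u) else 0
  have hoff : ∀ u, -1/2 < off u ∧ off u < 1/2 := by
    intro u
    simp only [off]
    split_ifs
    · exact ⟨sq_lo (by norm_num) _, sq_hi (by norm_num) _⟩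
    · norm_num
  let X : J → ℚ := fun u => R (X0 (rep u)) + off u
  have hXlt : ∀ u ∈ S ∪ W, ∀ v ∈ S ∪ W, X0 (rep u) < X0 (rep v) → X u < X v := by
    intro u hu v hv h
    have h1 := rk_lt (S ∪ Z) X0 (hr u hu) h
    have h2 := hoff u
    have h3 := hoff v
    simp only [X]
    rw [hR]
    linarith [h2.2, h3.1]
  have hXeq : ∀ u ∈ S ∪ W, ∀ v ∈ S ∪ W, X u = X v → X0 (rep u) = X0 (rep v) := by
    intro u hu v hv h
    rcases lt_trichotomy (X0 (rep u)) (X0 (rep v)) with h1 | h1 | h1
    · exact absurd h (ne_of_lt (hXlt u hu v hv h1))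
    · exact h1
    · exact absurd h (ne_of_gt (hXlt v hv u hu h1))
  have hXsame : ∀ u ∈ W, ∀ v ∈ W, rep u = rep v → (X u < X v ↔ x u < x v) := by
    intro u hu v hv he
    simp only [X, off, he, if_pos hu, if_pos hv]
    constructor
    · intro h
      exact (sq_iff (show (-1/2 : ℚ) < 1/2 by norm_num)).mp (by linarith)
    · intro h; have := sq_mono (show (-1/2 : ℚ) < 1/2 by norm_num) h; linarith
  have hXS : ∀ u ∈ S, X u = R (X0 u) := by
    intro u hu
    simp only [X, off, hrepS u hu, if_neg (fun h => (Finset.disjoint_left.mp hdis) hu h), add_zero]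
  -- X u < X v implies X0 (rep u) < X0 (rep v) or same rep, for W
  have hXrev : ∀ u ∈ S ∪ W, ∀ v ∈ S ∪ W, X u < X v → X0 (rep u) ≤ X0 (rep v) := by
    intro u hu v hv h
    by_contra hc
    exact absurd (hXlt v hv u hu (not_le.mp hc)) (not_lt.mpr h.le)
  have hXrevS : ∀ u ∈ S, ∀ v ∈ S, X u < X v → X0 u < X0 v := by
    intro u hu v hv h
    by_contra hc
    rw [hXS u hu, hXS v hv] at h
    exact absurd (rk_le (S ∪ Z) X0 (not_lt.mp hc)) (not_le.mpr h)
  have hmono : ∀ u ∈ S ∪ W, ∀ v ∈ S ∪ W, side u = side v → x u < x v → X u < X v := by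
    intro u hu v hv hs h
    have key : ∀ w ∈ S, ∀ t ∈ W, side w = side t → (x w < x t ↔ X0 w < X0 (rep t)) := by
      intro w hw t ht hwt
      have g := (hrep1 t ht).2.1
      rw [g.2 w hw hwt]
      exact pX w (Finset.mem_union_left _ hw) _ (Finset.mem_union_right _ (hrepZ t ht))
        (by rw [hside]; exact hwt)
    have key2 : ∀ w ∈ S, ∀ t ∈ W, side w = side t → x t < x w → X0 (rep t) < X0 w := by
      intro w hw t ht hwt h
      have h1 : ¬ X0 w < X0 (rep t) := fun h2 => absurd ((key w hw t ht hwt).mpr h2) (not_lt.mpr h.le)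
      rcases eq_or_lt_of_le (not_lt.mp h1) with h3 | h3
      · exfalso
        rcases hdist _ (Finset.mem_union_right _ (hrepZ t ht)) w (Finset.mem_union_left _ hw) h3 with
          h4 | h4
        · have h5 := hZW (hrepZ t ht)
          rw [h4] at h5
          exact (Finset.disjoint_left.mp hdis) hw h5
        · exact (Finset.disjoint_left.mp hdis) h4.1 (hZW (hrepZ t ht))
      · exact h3
    rcases Finset.mem_union.mp hu with hu' | hu' <;> rcases Finset.mem_union.mp hv with hv' | hv'
    · apply hXlt u hu v hv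
      rw [hrepS u hu', hrepS v hv']
      exact (pX u (Finset.mem_union_left _ hu') v (Finset.mem_union_left _ hv') hs).mp h
    · apply hXlt u hu v hv
      rw [hrepS u hu']
      exact (key u hu' v hv' hs).mp h
    · apply hXlt u hu v hv
      rw [hrepS v hv']
      exact key2 v hv' u hu' hs.symm h
    · by_cases hg : G u v
      · exact (hXsame u hu' v hv' (hrepeq u hu' v hv' hg)).mpr h
      · have : ∃ w ∈ S, side w = side u ∧ ¬ (x w < x u ↔ x w < x v) := by
          by_contra hc
          push Not at hc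
          exact hg ⟨hs, fun w hw hws => hc w hw hws⟩
        obtain ⟨w, hw, hws, hne⟩ := this
        have h1 : ¬ x w < x u := fun h2 => hne ⟨fun _ => h2.trans h, fun _ => h2⟩
        have h2 : x w < x v := by
          by_contra h3
          exact hne ⟨fun h4 => absurd h4 h1, fun h4 => absurd h4 h3⟩
        have h3 : x u < x w := by
          rcases eq_or_lt_of_le (not_lt.mp h1) with h4 | h4
          · exfalso
            have h5 := hx u hu w (Finset.mem_union_left _ hw) hws.symm h4
            rw [h5] at hu'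
            exact (Finset.disjoint_left.mp hdis) hw hu'
          · exact h4
        have h4 := key2 w hw u hu' hws h3
        have h5 := (key w hw v hv' (hws.trans hs)).mp h2
        exact hXlt u hu v hv (h4.trans h5)
  have hPX : Pres side (S ∪ W) x X := pres_of_imp hx hmono
  have hXinj : ∀ u ∈ S ∪ W, ∀ v ∈ S ∪ W, side u = side v → X u = X v → u = v := by
    intro u hu v hv hs he
    have h1 : ¬ x u < x v := fun h => absurd ((hPX u hu v hv hs).mp h) (by rw [he]; exact lt_irrefl _)
    have h2 : ¬ x v < x u := fun h =>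
      absurd ((hPX v hv u hu hs.symm).mp h) (by rw [he]; exact lt_irrefl _)
    exact hx u hu v hv hs (le_antisymm (not_lt.mp h2) (not_lt.mp h1))
  have hWrep : ∀ u ∈ W, ∀ v ∈ S ∪ W, X0 (rep u) = X0 (rep v) → v ∈ W ∧ rep u = rep v := by
    intro u hu v hv he
    have hru := hrepZ u hu
    rcases hdist _ (Finset.mem_union_right _ hru) _ (hr v hv) he with h | h
    · refine ⟨?_, h⟩
      by_contra hvW
      have hvS : v ∈ S := (Finset.mem_union.mp hv).resolve_right hvW
      rw [hrepS v hvS] at h
      rw [h] at hru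
      exact hvW (hZW hru)
    · exact absurd (hZW hru) (fun h2 => (Finset.disjoint_left.mp hdis) h.1 h2)
  have hXd : ∀ u ∈ S ∪ W, ∀ v ∈ S ∪ W, side u ≠ side v → X u = X v →
      u = m (side u) ∧ v = m (side v) := by
    intro u hu v hv hs he
    have h1 := hXeq u hu v hv he
    by_cases huW : u ∈ W
    · obtain ⟨_, h2⟩ := hWrep u huW v hv h1
      exact absurd (by rw [← hside u, ← hside v, h2]) hs
    by_cases hvW : v ∈ W
    · obtain ⟨_, h2⟩ := hWrep v hvW u hu h1.symm
      exact absurd (by rw [← hside u, ← hside v, h2]) hs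
    have huS : u ∈ S := (Finset.mem_union.mp hu).resolve_right huW
    have hvS : v ∈ S := (Finset.mem_union.mp hv).resolve_right hvW
    rw [hrepS u huS, hrepS v hvS] at h1
    exact dX u (Finset.mem_union_left _ huS) v (Finset.mem_union_left _ hvS) hs h1
  -- positions
  let N : J → ℚ := fun u => ((W.filter (fun v => ¬ G u v ∧ X v < X u)).card : ℚ)
  let pos : J → ℚ := fun u => N u + sq 0 1 (- y u)
  have hNeq : ∀ u ∈ W, ∀ v ∈ W, G u v → N u = N v := by
    intro u hu v hv hg
    have : W.filter (fun t => ¬ G u t ∧ X t < X u) = W.filter (fun t => ¬ G v t ∧ X t < X v) := by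
      apply Finset.filter_congr
      intro t ht
      have hre := hrepeq u hu v hv hg
      have e1 : G u t ↔ G v t := ⟨fun h => hg.symm.trans h, fun h => hg.trans h⟩
      rw [e1]
      apply and_congr_right
      intro hgt
      have hne : X0 (rep t) ≠ X0 (rep v) := by
        intro he
        obtain ⟨_, h2⟩ := hWrep t ht v (Finset.mem_union_right _ hv) he
        exact hgt (hrepG v hv t ht h2.symm)
      constructor
      · intro h
        have h1 := hXrev t (Finset.mem_union_right _ ht) u (Finset.mem_union_right _ hu) h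
        rw [hre] at h1
        exact hXlt t (Finset.mem_union_right _ ht) v (Finset.mem_union_right _ hv)
          (lt_of_le_of_ne h1 hne)
      · intro h
        have h1 := hXrev t (Finset.mem_union_right _ ht) v (Finset.mem_union_right _ hv) h
        apply hXlt t (Finset.mem_union_right _ ht) u (Finset.mem_union_right _ hu)
        rw [hre]
        exact lt_of_le_of_ne h1 hne
    simp only [N, this]
  have hNlt : ∀ u ∈ W, ∀ v ∈ W, ¬ G u v → X u < X v → N u + 1 ≤ N v := by
    intro u hu v hv hg hlt
    have hne : X0 (rep u) ≠ X0 (rep v) := by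
      intro he
      obtain ⟨_, h2⟩ := hWrep u hu v (Finset.mem_union_right _ hv) he
      exact hg (hrepG u hu v hv h2)
    have hlt0 : X0 (rep u) < X0 (rep v) := lt_of_le_of_ne
      (hXrev u (Finset.mem_union_right _ hu) v (Finset.mem_union_right _ hv) hlt) hne
    have : (W.filter (fun t => ¬ G u t ∧ X t < X u)).card <
        (W.filter (fun t => ¬ G v t ∧ X t < X v)).card := by
      apply Finset.card_lt_card
      constructor
      · intro t ht
        rw [Finset.mem_filter] at ht ⊢
        refine ⟨ht.1, ?_, ht.2.2.trans hlt⟩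
        intro hgt
        have h1 := hXrev t (Finset.mem_union_right _ ht.1) u (Finset.mem_union_right _ hu) ht.2.2
        rw [← hrepeq v hv t ht.1 hgt] at h1
        exact absurd hlt0 (not_lt.mpr h1)
      · intro hc
        have := hc (Finset.mem_filter.mpr ⟨hu, fun h => hg h.symm, hlt⟩)
        rw [Finset.mem_filter] at this
        exact this.2.1 (Grp.refl _ _ _ _)
    have h2 : (W.filter (fun t => ¬ G u t ∧ X t < X u)).card + 1 ≤
        (W.filter (fun t => ¬ G v t ∧ X t < X v)).card := this
    simp only [N]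
    exact_mod_cast h2
  have hposlt : ∀ u ∈ W, ∀ v ∈ W, ¬ G u v → X u < X v → pos u < pos v := by
    intro u hu v hv hg hlt
    have h1 := hNlt u hu v hv hg hlt
    have h2 := sq_hi (show (0:ℚ) < 1 by norm_num) (- y u)
    have h3 := sq_lo (show (0:ℚ) < 1 by norm_num) (- y v)
    simp only [pos]
    linarith
  have hposG : ∀ u ∈ W, ∀ v ∈ W, G u v → (y v < y u ↔ pos u < pos v) := by
    intro u hu v hv hg
    have h1 := hNeq u hu v hv hg
    simp only [pos, h1]
    constructor
    · intro h
      have := sq_mono (show (0:ℚ) < 1 by norm_num) (show -y u < -y v by linarith)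
      linarith
    · intro h
      have := (sq_iff (show (0:ℚ) < 1 by norm_num)).mp
        (show sq 0 1 (-y u) < sq 0 1 (-y v) by linarith)
      linarith
  have hXne : ∀ u ∈ W, ∀ v ∈ W, u ≠ v → X u ≠ X v := by
    intro u hu v hv hne he
    have hu' := Finset.mem_union_right S hu
    have hv' := Finset.mem_union_right S hv
    by_cases hs : side u = side v
    · exact hne (hXinj u hu' v hv' hs he)
    · have := (hXd u hu' v hv' hs he).1
      have h2 := hm (side u)
      rw [← this] at h2
      exact (Finset.disjoint_left.mp hdis) h2 hu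
  refine ⟨X, Y0, pos, hPX, pY, ?_, mY, hXd, dY, ?_, ?_, ?_, ?_, ?_, ?_⟩
  · rw [hXS _ (hm _), hXS _ (hm _), mX]
  · intro i hi j hj p hp q hq _ _ _ hpat
    obtain ⟨h1, h2, h3, h4⟩ := hpat
    exact aS i hi j hj p hp q hq trivial trivial trivial
      ⟨hXrevS i hi j hj h1, hXrevS j hj p hp h2, hXrevS p hp q hq h3, h4⟩
  · intro z hz i hi p hp q hq _ _ _ hpat
    obtain ⟨h1, h2, h3, h4, h5⟩ := hpat
    have hz' := Finset.mem_union_right S hz
    have e1 : X0 i < X0 (rep z) := by
      have h6 := hXrev i (Finset.mem_union_left _ hi) z hz' h1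
      rw [hrepS i hi] at h6
      refine lt_of_le_of_ne h6 ?_
      intro he
      have := (hWrep z hz i (Finset.mem_union_left _ hi) (by rw [hrepS i hi]; exact he.symm)).1
      exact (Finset.disjoint_left.mp hdis) hi this
    have e2 : X0 (rep z) < X0 p := by
      have h6 := hXrev z hz' p (Finset.mem_union_left _ hp) h2
      rw [hrepS p hp] at h6
      refine lt_of_le_of_ne h6 ?_
      intro he
      have := (hWrep z hz p (Finset.mem_union_left _ hp) (by rw [hrepS p hp]; exact he)).1
      exact (Finset.disjoint_left.mp hdis) hp this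
    exact cS (rep z) (hrepZ z hz) i hi p hp q hq trivial trivial trivial
      ⟨e1, e2, hXrevS p hp q hq h3, h4, h5⟩
  · intro u hu v hv he
    by_cases hg : G u v
    · apply hyW u hu v hv hg.1
      have h1 : ¬ y v < y u := fun h =>
        absurd ((hposG u hu v hv hg).mp h) (by rw [he]; exact lt_irrefl _)
      have h2 : ¬ y u < y v := fun h =>
        absurd ((hposG v hv u hu hg.symm).mp h) (by rw [he]; exact lt_irrefl _)
      exact le_antisymm (not_lt.mp h1) (not_lt.mp h2)
    · exfalso
      have hne : u ≠ v := fun h => hg (by rw [h]; exact Grp.refl _ _ _ _)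
      rcases lt_or_gt_of_ne (hXne u hu v hv hne) with h | h
      · exact absurd he (ne_of_lt (hposlt u hu v hv hg h))
      · exact absurd he (ne_of_gt (hposlt v hv u hu (fun h => hg h.symm) h))
  · intro u hu v hv hs
    by_cases hg : G u v
    · exact hposG u hu v hv hg
    · have hne : u ≠ v := fun h => hg (by rw [h]; exact Grp.refl _ _ _ _)
      have hu' := Finset.mem_union_right S hu
      have hv' := Finset.mem_union_right S hv
      -- separated by a point of S
      have key : ∀ u ∈ W, ∀ v ∈ W, side u = side v → ¬ G u v → x u < x v →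
          y v < y u ∧ pos u < pos v := by
        intro u hu v hv hs hg h
        have : ∃ w ∈ S, side w = side u ∧ ¬ (x w < x u ↔ x w < x v) := by
          by_contra hc
          push Not at hc
          exact hg ⟨hs, fun w hw hws => hc w hw hws⟩
        obtain ⟨w, hw, hws, hne⟩ := this
        have h1 : ¬ x w < x u := fun h2 => hne ⟨fun _ => h2.trans h, fun _ => h2⟩
        have h2 : x w < x v := by
          by_contra h3
          exact hne ⟨fun h4 => absurd h4 h1, fun h4 => absurd h4 h3⟩
        have h3 : x u < x w := by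
          rcases eq_or_lt_of_le (not_lt.mp h1) with h4 | h4
          · exfalso
            have h5 := hx u (Finset.mem_union_right _ hu) w (Finset.mem_union_left _ hw) hws.symm h4
            rw [h5] at hu
            exact (Finset.disjoint_left.mp hdis) hw hu
          · exact h4
        exact ⟨hsep u hu w hw v hv hws hs.symm h3 h2,
          hposlt u hu v hv hg (hmono u (Finset.mem_union_right _ hu) v
            (Finset.mem_union_right _ hv) hs h)⟩
      rcases lt_trichotomy (x u) (x v) with h | h | h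
      · obtain ⟨h1, h2⟩ := key u hu v hv hs hg h
        exact ⟨fun _ => h2, fun _ => h1⟩
      · exact absurd (hx u hu' v hv' hs h) hne
      · obtain ⟨h1, h2⟩ := key v hv u hu hs.symm (fun h => hg h.symm) h
        exact ⟨fun h3 => absurd h3 (not_lt.mpr h1.le), fun h3 => absurd h3 (not_lt.mpr h2.le)⟩
  · intro u hu v hv hg _ w hw h1 h2
    have hu' := Finset.mem_union_right S hu
    have hv' := Finset.mem_union_right S hv
    have e1 := hXrev u hu' w hw h1
    have e2 := hXrev w hw v hv' h2
    rw [← hrepeq u hu v hv hg] at e2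
    obtain ⟨h3, h4⟩ := hWrep u hu w hw (le_antisymm e1 e2)
    exact ⟨h3, by rw [← hside w, ← hside u, h4]⟩
  · intro u hu v hv h1 h2
    by_contra hg
    exact absurd (hposlt u hu v hv hg h1) (not_lt.mpr h2.le)

end Pool.Agent.U591.AM
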