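import Mathlib
import Pool.Agent.U591.AM.Stm
import Pool.Agent.U591.AM.PG

namespace Pool.Agent.U591.AM

/-- class of the queue -/
def zc : K → ZMod 4
  | .RT => 0 | .RB => 1 | .LB => 2 | .LT => 3 | .AT => 3 | .CB => 1 | .A => 0 | .M => 0 | .C => 0

/-- entry coordinate -/
def zs : K → ℚ → ℚ → ℚ
  | .RT, _, y => y | .RB, x, _ => x | .LB, _, y => -y | .LT, x, _ => -x | _, _, _ => 0

/-- exit coordinate -/
def zf : K → ℚ → ℚ → ℚ
  | .RT, x, _ => x | .RB, _, y => -y | .LB, x, _ => -x | .LT, _, y => y | .AT, _, y => y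
  | .CB, _, y => -y | _, _, _ => 0

def isA (k : K) : Prop := k = .RT ∨ k = .RB ∨ k = .LB ∨ k = .LT
def isB (k : K) : Prop := k = .AT ∨ k = .CB

instance (k : K) : Decidable (isA k) := by unfold isA; infer_instance
instance (k : K) : Decidable (isB k) := by unfold isB; infer_instance

theorem z_own {J : Type} [DecidableEq J] (side : J → Bool) (x y : J → ℚ) (k : J → K)
    (h : V (fun u v => side u = side v) k x y) (A B : Finset J)
    (hA : ∀ e ∈ A, isA (k e)) (hB : ∀ e ∈ B, isB (k e)) :
    ZOK (fun u => zc (k u)) (fun u v => side u = side v) (fun u => zs (k u) (x u) (y u))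
      (fun u => zf (k u) (x u) (y u)) A B := by
  refine ⟨?_, ?_, ?_, ?_, ?_⟩
  · intro b hb a ha hc hR
    rcases hB b hb with h1 | h1 <;> rcases hA a ha with h2 | h2 | h2 | h2 <;>
      first
      | (exfalso; revert hc; simp only [h1, h2]; decide)
      | skip
    · simp only [h1, h2, zf]
      exact h.z1T b a h1 h2 hR.symm
    · simp only [h1, h2, zf]
      have := h.z1B a b h2 h1 hR
      linarith
  · intro e he e' he' w hw hc hc' hR hR' h1 h2
    have hw' : isA (k w) ∨ isB (k w) := by
      rcases Finset.mem_union.mp hw with h | h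
      · exact Or.inl (hA w h)
      · exact Or.inr (hB w h)
    rcases hA e he with g1 | g1 | g1 | g1 <;> rcases hA e' he' with g2 | g2 | g2 | g2 <;>
      first
      | (exfalso; revert hc; simp only [g1, g2]; decide)
      | skip
    · rcases hw' with (g3 | g3 | g3 | g3) | (g3 | g3) <;>
        first
        | (exfalso; revert hc'; simp only [g1, g3]; decide)
        | skip
      · simp only [g1, g2, g3, zs, zf] at h1 h2 ⊢
        exact h.z2RT e w e' g1 (Or.inr g3) g2 hR' hR h1 h2
      · simp only [g1, g2, g3, zs, zf] at h1 h2 ⊢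
        exact h.z2RT e w e' g1 (Or.inl g3) g2 hR' hR h1 h2
    · rcases hw' with (g3 | g3 | g3 | g3) | (g3 | g3) <;>
        first
        | (exfalso; revert hc'; simp only [g1, g3]; decide)
        | skip
      simp only [g1, g2, g3, zs, zf] at h1 h2 ⊢
      have := h.z2RB e w e' g1 g3 g2 hR' hR h1 h2
      linarith
    · rcases hw' with (g3 | g3 | g3 | g3) | (g3 | g3) <;>
        first
        | (exfalso; revert hc'; simp only [g1, g3]; decide)
        | skip
      · simp only [g1, g2, g3, zs, zf] at h1 h2 ⊢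
        have := h.z2LB e' w e g2 (Or.inr g3) g1 (hR.symm.trans hR') hR.symm (by linarith) (by linarith)
        linarith
      · simp only [g1, g2, g3, zs, zf] at h1 h2 ⊢
        have := h.z2LB e' w e g2 (Or.inl g3) g1 (hR.symm.trans hR') hR.symm (by linarith) (by linarith)
        linarith
    · rcases hw' with (g3 | g3 | g3 | g3) | (g3 | g3) <;>
        first
        | (exfalso; revert hc'; simp only [g1, g3]; decide)
        | skip
      simp only [g1, g2, g3, zs, zf] at h1 h2 ⊢
      exact h.z2LT e' w e g2 g3 g1 (hR.symm.trans hR') hR.symm (by linarith) (by linarith)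
  · intro e0 h0 e1 h1 e2 h2 e3 h3 c1 c2 c3 r1 r2 r3 hh
    obtain ⟨a1, a2, a3, a4⟩ := hh
    have r1' : side e0 = side e1 := r1
    have r2' : side e0 = side e2 := r2
    have r3' : side e0 = side e3 := r3
    have key : ∀ i j p q : J, side i = side j → side i = side p → side i = side q →
        k i = .LT → k j = .LB → k p = .RT → k q = .RB → zf (k p) (x p) (y p) < zs (k q) (x q) (y q) →
        zf (k q) (x q) (y q) < zs (k j) (x j) (y j) → zf (k j) (x j) (y j) < zs (k i) (x i) (y i) →
        zf (k i) (x i) (y i) < zs (k p) (x p) (y p) → False := by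
      intro i j p q s1 s2 s3 k1 k2 k3 k4 b1 b2 b3 b4
      simp only [k1, k2, k3, k4, zs, zf] at b1 b2 b3 b4
      refine h.z3 i j p q k1 k2 k3 k4 s1 s2 s3 ⟨by linarith, ?_, b1, by linarith, ?_, b4⟩
      · exact h.cols j p (s1.symm.trans s2) (by rw [k2, k3]; decide)
      · exact h.rows q i s3.symm (by rw [k4, k1]; decide)
    rcases hA e0 h0 with g0 | g0 | g0 | g0 <;> rcases hA e1 h1 with g1 | g1 | g1 | g1 <;>
      first
      | (exfalso; revert c1; simp only [g0, g1]; decide)
      | skip
    all_goals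
      rcases hA e2 h2 with g2 | g2 | g2 | g2 <;>
      first
      | (exfalso; revert c2; simp only [g1, g2]; decide)
      | skip
    all_goals
      rcases hA e3 h3 with g3 | g3 | g3 | g3 <;>
      first
      | (exfalso; revert c3; simp only [g2, g3]; decide)
      | skip
    · exact key e3 e2 e0 e1 (r3'.symm.trans r2') r3'.symm (r3'.symm.trans r1') g3 g2 g0 g1 a1 a2 a3 a4
    · exact key e2 e1 e3 e0 (r2'.symm.trans r1') (r2'.symm.trans r3') r2'.symm g2 g1 g3 g0 a4 a1 a2 a3
    · exact key e1 e0 e2 e3 r1'.symm (r1'.symm.trans r2') (r1'.symm.trans r3') g1 g0 g2 g3 a3 a4 a1 a2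
    · exact key e0 e3 e1 e2 r3' r1' r2' g0 g3 g1 g2 a2 a3 a4 a1
  · intro e1 h1 e2 h2 e3 h3 e4 h4 c2 c3 c4 r2 r3 r4 hh
    obtain ⟨a1, a2, a3, a4, a5, a6⟩ := hh
    have r2' : side e1 = side e2 := r2
    have r3' : side e1 = side e3 := r3
    have r4' : side e1 = side e4 := r4
    rcases hA e1 h1 with g1 | g1 | g1 | g1 <;> rcases hA e2 h2 with g2 | g2 | g2 | g2 <;>
      first
      | (exfalso; revert c2; simp only [g1, g2]; decide)
      | skip
    all_goals
      rcases hA e3 h3 with g3 | g3 | g3 | g3 <;>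
      first
      | (exfalso; revert c3; simp only [g1, g3]; decide)
      | skip
    all_goals
      rcases hA e4 h4 with g4 | g4 | g4 | g4 <;>
      first
      | (exfalso; revert c4; simp only [g1, g4]; decide)
      | skip
    all_goals simp only [g1, g2, g3, g4, zs, zf] at a1 a2 a3 a4 a5 a6
    · exact h.av e1 e2 e3 e4 (by rw [g1, g2]) (by rw [g1, g3]) (by rw [g1, g4]) r2' r3' r4'
        ⟨a1, a2, a3, a4, a5, a6⟩
    · exact h.av e2 e4 e1 e3 (by rw [g4, g2]) (by rw [g1, g2]) (by rw [g3, g2]) (r2'.symm.trans r4')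
        r2'.symm (r2'.symm.trans r3') ⟨a4, a5, a6, by linarith, by linarith, by linarith⟩
    · exact h.av e4 e3 e2 e1 (by rw [g4, g3]) (by rw [g4, g2]) (by rw [g4, g1]) (r4'.symm.trans r3')
        (r4'.symm.trans r2') r4'.symm ⟨by linarith, by linarith, by linarith, by linarith,
          by linarith, by linarith⟩
    · exact h.av e3 e1 e4 e2 (by rw [g1, g3]) (by rw [g4, g3]) (by rw [g2, g3]) r3'.symm
        (r3'.symm.trans r4') (r3'.symm.trans r2') ⟨by linarith, by linarith, by linarith, a1, a2, a3⟩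
  · intro e1 h1 e2 h2 e3 h3 p hp c2 c3 cp r2 r3 rp hh
    obtain ⟨a1, a2, a3, a4, a5⟩ := hh
    have r2' : side e1 = side e2 := r2
    have r3' : side e1 = side e3 := r3
    have rp' : side e1 = side p := rp
    rcases hA e1 h1 with g1 | g1 | g1 | g1 <;> rcases hA e2 h2 with g2 | g2 | g2 | g2 <;>
      first
      | (exfalso; revert c2; simp only [g1, g2]; decide)
      | skip
    all_goals
      rcases hA e3 h3 with g3 | g3 | g3 | g3 <;>
      first
      | (exfalso; revert c3; simp only [g1, g3]; decide)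
      | skip
    all_goals
      rcases hA p hp with g4 | g4 | g4 | g4 <;>
      first
      | (exfalso; revert cp; simp only [g1, g4]; decide)
      | skip
    all_goals simp only [g1, g2, g3, g4, zs, zf] at a1 a2 a3 a4 a5
    · refine h.cutRT e1 p e2 e3 g1 g4 g2 g3 rp' r2' r3' ⟨a1, a2, a3, ?_, a4, a5⟩
      exact h.rows p e3 (rp'.symm.trans r3') (by rw [g4, g3]; decide)
    · refine h.cutRB p e3 e1 e2 g4 g3 g1 g2 (rp'.symm.trans r3') rp'.symm (rp'.symm.trans r2')
        ⟨?_, a4, a5, by linarith, by linarith, by linarith⟩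
      exact h.cols p e3 (rp'.symm.trans r3') (by rw [g4, g3]; decide)
    · refine h.cutLB e3 e2 p e1 g3 g2 g4 g1 (r3'.symm.trans r2') (r3'.symm.trans rp') r3'.symm
        ⟨by linarith, by linarith, by linarith, by linarith, by linarith, ?_⟩
      exact h.rows e3 p (r3'.symm.trans rp') (by rw [g4, g3]; decide)
    · refine h.cutLT e2 e1 e3 p g2 g1 g3 g4 r2'.symm (r2'.symm.trans r3') (r2'.symm.trans rp')
        ⟨by linarith, by linarith, ?_, a1, a2, a3⟩
      exact h.cols e3 p (r3'.symm.trans rp') (by rw [g4, g3]; decide)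

end Pool.Agent.U591.AM
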