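import Mathlib
import Pool.Agent.U591.AM.Stm
import Pool.Agent.U591.AM.PG
import Pool.Agent.U591.AM.PM1

namespace Pool.Agent.U591.AM

/-- final column -/
def cX (k : K) (sd : Bool) (xa xc x s f : ℚ) : ℚ :=
  match k with
  | .A => sq 0 1 (-xa) | .AT => sq 0 1 (-xa)
  | .M => if sd then sq (3/2) 2 x else sq 1 (3/2) x
  | .C => sq 2 3 xc | .CB => sq 2 3 xc
  | .RT => sq 4 5 f | .RB => sq 4 5 s | .LB => - sq 4 5 f | .LT => - sq 4 5 s

/-- final row -/
def cY (k : K) (sd : Bool) (ya yc y s f : ℚ) : ℚ :=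
  match k with
  | .A => sq 0 1 (-ya)
  | .M => if sd then sq (3/2) 2 y else sq 1 (3/2) y
  | .C => sq 2 3 yc
  | .AT => sq 4 5 f | .LT => sq 4 5 f | .RT => sq 4 5 s
  | .CB => - sq 4 5 f | .RB => - sq 4 5 f | .LB => - sq 4 5 s

def lo : ℕ → ℚ | 0 => -5 | 1 => 0 | 2 => 1 | 3 => 2 | _ => 4
def hi : ℕ → ℚ | 0 => -4 | 1 => 1 | 2 => 2 | 3 => 3 | _ => 5

theorem hi_le_lo {a b : ℕ} (h : a < b) (hb : b ≤ 4) : hi a ≤ lo b := by
  interval_cases b <;> interval_cases a <;> norm_num [hi, lo]

theorem colr_le (k : K) : colr k ≤ 4 := by cases k <;> decide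
theorem rowr_le (k : K) : rowr k ≤ 4 := by cases k <;> decide

theorem cX_range (k : K) (sd : Bool) (xa xc x s f : ℚ) :
    lo (colr k) < cX k sd xa xc x s f ∧ cX k sd xa xc x s f < hi (colr k) := by
  have a1 := fun t => sq_lo (show (0:ℚ) < 1 by norm_num) t
  have a2 := fun t => sq_hi (show (0:ℚ) < 1 by norm_num) t
  have b1 := fun t => sq_lo (show (3/2:ℚ) < 2 by norm_num) t
  have b2 := fun t => sq_hi (show (3/2:ℚ) < 2 by norm_num) t
  have c1 := fun t => sq_lo (show (1:ℚ) < 3/2 by norm_num) t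
  have c2 := fun t => sq_hi (show (1:ℚ) < 3/2 by norm_num) t
  have d1 := fun t => sq_lo (show (2:ℚ) < 3 by norm_num) t
  have d2 := fun t => sq_hi (show (2:ℚ) < 3 by norm_num) t
  have e1 := fun t => sq_lo (show (4:ℚ) < 5 by norm_num) t
  have e2 := fun t => sq_hi (show (4:ℚ) < 5 by norm_num) t
  cases k <;> simp only [cX, colr, lo, hi]
  · exact ⟨a1 _, a2 _⟩
  · cases sd
    · simp only [Bool.false_eq_true, if_false]
      exact ⟨c1 _, (c2 _).trans (by norm_num)⟩
    · simp only [if_true]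
      exact ⟨(show (1:ℚ) < 3/2 by norm_num).trans (b1 _), b2 _⟩
  · exact ⟨d1 _, d2 _⟩
  · exact ⟨a1 _, a2 _⟩
  · exact ⟨d1 _, d2 _⟩
  · exact ⟨by linarith [e2 s], by linarith [e1 s]⟩
  · exact ⟨e1 _, e2 _⟩
  · exact ⟨by linarith [e2 f], by linarith [e1 f]⟩
  · exact ⟨e1 _, e2 _⟩

theorem cY_range (k : K) (sd : Bool) (xa xc x s f : ℚ) :
    lo (rowr k) < cY k sd xa xc x s f ∧ cY k sd xa xc x s f < hi (rowr k) := by
  have a1 := fun t => sq_lo (show (0:ℚ) < 1 by norm_num) t
  have a2 := fun t => sq_hi (show (0:ℚ) < 1 by norm_num) t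
  have b1 := fun t => sq_lo (show (3/2:ℚ) < 2 by norm_num) t
  have b2 := fun t => sq_hi (show (3/2:ℚ) < 2 by norm_num) t
  have c1 := fun t => sq_lo (show (1:ℚ) < 3/2 by norm_num) t
  have c2 := fun t => sq_hi (show (1:ℚ) < 3/2 by norm_num) t
  have d1 := fun t => sq_lo (show (2:ℚ) < 3 by norm_num) t
  have d2 := fun t => sq_hi (show (2:ℚ) < 3 by norm_num) t
  have e1 := fun t => sq_lo (show (4:ℚ) < 5 by norm_num) t
  have e2 := fun t => sq_hi (show (4:ℚ) < 5 by norm_num) t
  cases k <;> simp only [cY, rowr, lo, hi]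
  · exact ⟨a1 _, a2 _⟩
  · cases sd
    · simp only [Bool.false_eq_true, if_false]
      exact ⟨c1 _, (c2 _).trans (by norm_num)⟩
    · simp only [if_true]
      exact ⟨(show (1:ℚ) < 3/2 by norm_num).trans (b1 _), b2 _⟩
  · exact ⟨d1 _, d2 _⟩
  · exact ⟨e1 _, e2 _⟩
  · exact ⟨by linarith [e2 f], by linarith [e1 f]⟩
  · exact ⟨e1 _, e2 _⟩
  · exact ⟨e1 _, e2 _⟩
  · exact ⟨by linarith [e2 s], by linarith [e1 s]⟩
  · exact ⟨by linarith [e2 f], by linarith [e1 f]⟩

/-- everything that the final verification needs, for both sides -/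
structure Data {J : Type} [DecidableEq J] (side : J → Bool) (x y : J → ℚ) (k : J → K)
    (a c : Bool → J) (As Bs SA WA SC WC : Finset J) (XA YA pA XC YC pC S F : J → ℚ) : Prop where
  hAs : ∀ u, u ∈ As ↔ isA (k u)
  hBs : ∀ u, u ∈ Bs ↔ isB (k u)
  hSA : ∀ u, u ∈ SA ↔ k u = .A
  hWA : ∀ u, u ∈ WA ↔ k u = .AT
  hSC : ∀ u, u ∈ SC ↔ k u = .C
  hWC : ∀ u, u ∈ WC ↔ k u = .CB
  -- part A (rotated by 180 degrees)
  a1 : ∀ u ∈ SA ∪ WA, ∀ v ∈ SA ∪ WA, side u = side v → x u < x v → XA v < XA u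
  a2 : ∀ u ∈ SA, ∀ v ∈ SA, side u = side v → y u < y v → YA v < YA u
  a3 : XA (a false) = XA (a true)
  a4 : YA (a false) = YA (a true)
  a5 : ∀ u ∈ SA ∪ WA, ∀ v ∈ SA ∪ WA, side u ≠ side v → XA u = XA v → u = a (side u) ∧ v = a (side v)
  a6 : ∀ u ∈ SA, ∀ v ∈ SA, side u ≠ side v → YA u = YA v → u = a (side u) ∧ v = a (side v)
  a7 : Av (fun _ _ => True) SA XA YA
  a8 : Cut (fun _ _ => True) SA WA XA YA
  a9 : ∀ u ∈ WA, ∀ v ∈ WA, pA u = pA v → u = v
  a10 : ∀ u ∈ WA, ∀ v ∈ WA, Grp side SA (fun u => - x u) u v → XA u < XA v → ∀ w ∈ SA ∪ WA,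
    XA u < XA w → XA w < XA v → w ∈ WA ∧ side w = side u
  a11 : ∀ u ∈ WA, ∀ v ∈ WA, XA u < XA v → pA v < pA u → Grp side SA (fun u => - x u) u v
  -- part C
  c1 : ∀ u ∈ SC ∪ WC, ∀ v ∈ SC ∪ WC, side u = side v → x u < x v → XC u < XC v
  c2 : ∀ u ∈ SC, ∀ v ∈ SC, side u = side v → y u < y v → YC u < YC v
  c3 : XC (c false) = XC (c true)
  c4 : YC (c false) = YC (c true)
  c5 : ∀ u ∈ SC ∪ WC, ∀ v ∈ SC ∪ WC, side u ≠ side v → XC u = XC v → u = c (side u) ∧ v = c (side v)
  c6 : ∀ u ∈ SC, ∀ v ∈ SC, side u ≠ side v → YC u = YC v → u = c (side u) ∧ v = c (side v)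
  c7 : Av (fun _ _ => True) SC XC YC
  c8 : Cut (fun _ _ => True) SC WC XC YC
  c9 : ∀ u ∈ WC, ∀ v ∈ WC, pC u = pC v → u = v
  c10 : ∀ u ∈ WC, ∀ v ∈ WC, Grp side SC x u v → XC u < XC v → ∀ w ∈ SC ∪ WC,
    XC u < XC w → XC w < XC v → w ∈ WC ∧ side w = side u
  c11 : ∀ u ∈ WC, ∀ v ∈ WC, XC u < XC v → pC v < pC u → Grp side SC x u v
  -- queues
  z1 : ∀ b ∈ Bs, F b = if k b = .AT then pA b else pC b
  z2 : ∀ e ∈ As, ∀ e' ∈ As, side e = side e' → zc (k e) = zc (k e') →
    (zs (k e) (x e) (y e) < zs (k e') (x e') (y e') ↔ S e < S e')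
  z3 : ∀ e ∈ As ∪ Bs, ∀ e' ∈ As ∪ Bs, side e = side e' → zc (k e) = zc (k e') →
    (zf (k e) (x e) (y e) < zf (k e') (x e') (y e') ↔ F e < F e')
  z4 : ∀ e ∈ As, ∀ e' ∈ As ∪ Bs, side e = side e' → zc (k e) = zc (k e') + 1 →
    (zf (k e') (x e') (y e') < zs (k e) (x e) (y e) ↔ F e' < S e)
  z5 : ∀ e ∈ As, ∀ e' ∈ As, zc (k e) = zc (k e') → S e = S e' → e = e'
  z6 : ∀ e ∈ As ∪ Bs, ∀ e' ∈ As ∪ Bs, zc (k e) = zc (k e') → F e = F e' → e = e'
  z7 : ∀ e ∈ As, ∀ e' ∈ As ∪ Bs, zc (k e) = zc (k e') + 1 → S e ≠ F e'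
  z8 : ∀ e ∈ As, ∀ e' ∈ As ∪ Bs, zc (k e) = zc (k e') + 1 → side e' ≠ side e → F e' < S e →
    ∃ x' ∈ As ∪ Bs, zc (k x') = zc (k e') ∧ side x' = side e ∧ F e' < F x' ∧ F x' < S e
  z9 : ZOK (fun u => zc (k u)) (fun _ _ => True) S F As Bs

theorem exists_data (hG : S_G) (hZ : S_Z) {J : Type} [Fintype J] [DecidableEq J] (side : J → Bool)
    (x y : J → ℚ) (k : J → K) (a c : Bool → J)
    (ha : ∀ b, side (a b) = b) (hc : ∀ b, side (c b) = b) (hka : ∀ b, k (a b) = .A)
    (hkc : ∀ b, k (c b) = .C)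
    (hx : ∀ u v, side u = side v → x u = x v → u = v)
    (hy : ∀ u v, side u = side v → y u = y v → u = v)
    (h : V (fun u v => side u = side v) k x y) :
    ∃ (As Bs SA WA SC WC : Finset J) (XA YA pA XC YC pC S F : J → ℚ),
      Data side x y k a c As Bs SA WA SC WC XA YA pA XC YC pC S F := by
  let As := Finset.univ.filter (fun u => isA (k u))
  let Bs := Finset.univ.filter (fun u => isB (k u))
  let SA := Finset.univ.filter (fun u => k u = .A)
  let WA := Finset.univ.filter (fun u => k u = .AT)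
  let SC := Finset.univ.filter (fun u => k u = .C)
  let WC := Finset.univ.filter (fun u => k u = .CB)
  have hAs : ∀ u, u ∈ As ↔ isA (k u) := fun u => by simp [As]
  have hBs : ∀ u, u ∈ Bs ↔ isB (k u) := fun u => by simp [Bs]
  have hSA : ∀ u, u ∈ SA ↔ k u = .A := fun u => by simp [SA]
  have hWA : ∀ u, u ∈ WA ↔ k u = .AT := fun u => by simp [WA]
  have hSC : ∀ u, u ∈ SC ↔ k u = .C := fun u => by simp [SC]
  have hWC : ∀ u, u ∈ WC ↔ k u = .CB := fun u => by simp [WC]
  obtain ⟨XC, YC, pC, c1, c2, c3, c4, c5, c6, c7, c8, c9, c9', c10, c11⟩ := hG J side x y SC WC c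
    (by
      rw [Finset.disjoint_left]
      intro u h1 h2
      rw [hSC] at h1; rw [hWC, h1] at h2; exact absurd h2 (by decide))
    (fun b => (hSC _).mpr (hkc b)) hc
    (fun u _ v _ => hx u v) (fun u _ v _ => hy u v) (fun u _ v _ => hy u v)
    (by
      intro i hi j hj p hp q hq r1 r2 r3
      rw [hSC] at hi hj hp hq
      exact h.av i j p q (by rw [hi, hj]) (by rw [hi, hp]) (by rw [hi, hq]) r1 r2 r3)
    (by
      intro z hz i hi p hp q hq r1 r2 r3 hh
      rw [hWC] at hz
      rw [hSC] at hi hp hq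
      have r1' : side z = side i := r1
      have r2' : side z = side p := r2
      have r3' : side z = side q := r3
      exact h.cutC i z p q hi hz hp hq r1'.symm (r1'.symm.trans r2') (r1'.symm.trans r3')
        ⟨hh.1, hh.2.1, hh.2.2.1, h.rows z q r3' (by rw [hz, hq]; decide), hh.2.2.2.1, hh.2.2.2.2⟩)
    (by
      intro u hu w hw v hv r1 r2 h1 h2
      rw [hWC] at hu hv
      rw [hSC] at hw
      exact h.sepC u w v hu hw hv r1.symm r2.symm h1 h2)
  obtain ⟨XA, YA, pA, a1, a2, a3, a4, a5, a6, a7, a8, a9, a9', a10, a11⟩ :=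
    hG J side (fun u => - x u) (fun u => - y u) SA WA a
    (by
      rw [Finset.disjoint_left]
      intro u h1 h2
      rw [hSA] at h1; rw [hWA, h1] at h2; exact absurd h2 (by decide))
    (fun b => (hSA _).mpr (hka b)) ha
    (fun u _ v _ hs he => hx u v hs (neg_injective he))
    (fun u _ v _ hs he => hy u v hs (neg_injective he))
    (fun u _ v _ hs he => hy u v hs (neg_injective he))
    (by
      intro i hi j hj p hp q hq r1 r2 r3 hh
      rw [hSA] at hi hj hp hq
      obtain ⟨h1, h2, h3, h4, h5, h6⟩ := hh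
      have r1' : side i = side j := r1
      have r2' : side i = side p := r2
      have r3' : side i = side q := r3
      exact h.av q p j i (by rw [hq, hp]) (by rw [hq, hj]) (by rw [hq, hi]) (r3'.symm.trans r2')
        (r3'.symm.trans r1') r3'.symm
        ⟨by linarith, by linarith, by linarith, by linarith, by linarith, by linarith⟩)
    (by
      intro z hz i hi p hp q hq r1 r2 r3 hh
      rw [hWA] at hz
      rw [hSA] at hi hp hq
      have r1' : side z = side i := r1
      have r2' : side z = side p := r2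
      have r3' : side z = side q := r3
      obtain ⟨h1, h2, h3, h4, h5⟩ := hh
      exact h.cutA q p z i hq hp hz hi (r3'.symm.trans r2') r3'.symm (r3'.symm.trans r1')
        ⟨by linarith, by linarith, by linarith, by linarith, by linarith,
          h.rows q z r3'.symm (by rw [hz, hq]; decide)⟩)
    (by
      intro u hu w hw v hv r1 r2 h1 h2
      rw [hWA] at hu hv
      rw [hSA] at hw
      have := h.sepA v w u hv hw hu (r2.trans r1.symm) r2 (by linarith) (by linarith)
      linarith)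
  have hAk : ∀ e ∈ As, isA (k e) := fun e he => (hAs e).mp he
  have hBk : ∀ e ∈ Bs, isB (k e) := fun e he => (hBs e).mp he
  have hABk : ∀ e ∈ As ∪ Bs, isA (k e) ∨ isB (k e) := by
    intro e he
    rcases Finset.mem_union.mp he with h | h
    · exact Or.inl (hAk e h)
    · exact Or.inr (hBk e h)
  obtain ⟨S, F, z1, z2, z3, z4, z5, z6, z7, z8, _, z9⟩ := hZ J (fun u => zc (k u)) side
    (fun u => zs (k u) (x u) (y u)) (fun u => zf (k u) (x u) (y u)) As Bs
    (fun u => if k u = .AT then pA u else pC u)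
    (by
      rw [Finset.disjoint_left]
      intro u h1 h2
      rcases hAk u h1 with h3 | h3 | h3 | h3 <;> rcases hBk u h2 with h4 | h4 <;>
        (rw [h3] at h4; exact absurd h4 (by decide)))
    (by
      intro e he e' he' hs hcc hss
      rcases hAk e he with g1 | g1 | g1 | g1 <;> rcases hAk e' he' with g2 | g2 | g2 | g2 <;>
        first
        | (exfalso; revert hcc; simp only [g1, g2]; decide)
        | skip
      all_goals simp only [g1, g2, zs] at hss
      · exact hy e e' hs hss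
      · exact hx e e' hs hss
      · exact hy e e' hs (neg_injective hss)
      · exact hx e e' hs (neg_injective hss))
    (by
      intro e he e' he' hs hcc hss
      rcases hABk e he with (g1 | g1 | g1 | g1) | (g1 | g1) <;>
        rcases hABk e' he' with (g2 | g2 | g2 | g2) | (g2 | g2) <;>
        first
        | (exfalso; revert hcc; simp only [g1, g2]; decide)
        | skip
      all_goals simp only [g1, g2, zf] at hss
      all_goals
        first
        | exact hx e e' hs hss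
        | exact hy e e' hs hss
        | exact hx e e' hs (neg_injective hss)
        | exact hy e e' hs (neg_injective hss))
    (by
      intro e he e' he' hs hcc hss
      have key : ∀ e e' : J, e = e' → k e = k e' := fun e e' h => by rw [h]
      rcases hAk e he with g1 | g1 | g1 | g1 <;>
        rcases hABk e' he' with (g2 | g2 | g2 | g2) | (g2 | g2) <;>
        first
        | (exfalso; revert hcc; simp only [g1, g2]; decide)
        | skip
      all_goals simp only [g1, g2, zf, zs] at hss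
      all_goals
        first
        | (have h3 := key _ _ (hx e e' hs hss); rw [g1, g2] at h3; exact absurd h3 (by decide))
        | (have h3 := key _ _ (hy e e' hs hss); rw [g1, g2] at h3; exact absurd h3 (by decide))
        | (have h3 := key _ _ (hx e e' hs (neg_injective hss)); rw [g1, g2] at h3
           exact absurd h3 (by decide))
        | (have h3 := key _ _ (hy e e' hs (neg_injective hss)); rw [g1, g2] at h3
           exact absurd h3 (by decide)))
    (by
      intro e he e' he' hcc hss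
      rcases hBk e he with g1 | g1 <;> rcases hBk e' he' with g2 | g2 <;>
        first
        | (exfalso; revert hcc; simp only [g1, g2]; decide)
        | skip
      · simp only [g1, g2, if_true] at hss
        exact a9 e ((hWA e).mpr g1) e' ((hWA e').mpr g2) hss
      · rw [if_neg (by rw [g1]; decide), if_neg (by rw [g2]; decide)] at hss
        exact c9 e ((hWC e).mpr g1) e' ((hWC e').mpr g2) hss)
    (by
      intro e he e' he' hs hcc
      rcases hBk e he with g1 | g1 <;> rcases hBk e' he' with g2 | g2 <;>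
        first
        | (exfalso; revert hcc; simp only [g1, g2]; decide)
        | skip
      · simp only [g1, g2, if_true, zf]
        rw [← a9' e ((hWA e).mpr g1) e' ((hWA e').mpr g2) hs]
        constructor <;> intro h <;> linarith
      · simp only [g1, g2, zf]
        rw [if_neg (by decide), if_neg (by decide),
          ← c9' e ((hWC e).mpr g1) e' ((hWC e').mpr g2) hs]
        constructor <;> intro h <;> linarith)
    (z_own side x y k h As Bs hAk hBk)
  refine ⟨As, Bs, SA, WA, SC, WC, XA, YA, pA, XC, YC, pC, S, F, hAs, hBs, hSA, hWA, hSC, hWC,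
    ?_, ?_, a3, a4, a5, a6, a7, a8, a9, a10, a11, ?_, ?_, c3, c4, c5, c6, c7, c8, c9, c10, c11,
    z1, z2, z3, z4, z5, z6, z7, z8, z9⟩
  · intro u hu v hv hs hlt
    exact (a1 v hv u hu hs.symm).mp (by linarith)
  · intro u hu v hv hs hlt
    exact (a2 v hv u hu hs.symm).mp (by linarith)
  · intro u hu v hv hs hlt
    exact (c1 u hu v hv hs).mp hlt
  · intro u hu v hv hs hlt
    exact (c2 u hu v hv hs).mp hlt

end Pool.Agent.U591.AM
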