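import Mathlib
import Pool.Agent.U591.AM.Stm
import Pool.Agent.U591.AM.PG
import Pool.Agent.U591.AM.PM1
import Pool.Agent.U591.AM.PM2

namespace Pool.Agent.U591.AM

section
variable {J : Type} [DecidableEq J] {side : J → Bool} {x y : J → ℚ} {k : J → K}
  {a c : Bool → J} {As Bs SA WA SC WC : Finset J} {XA YA pA XC YC pC S F : J → ℚ}

theorem s01 {s t : ℚ} : sq 0 1 s < sq 0 1 t ↔ s < t := sq_iff (by norm_num)
theorem s23 {s t : ℚ} : sq 2 3 s < sq 2 3 t ↔ s < t := sq_iff (by norm_num)
theorem s45 {s t : ℚ} : sq 4 5 s < sq 4 5 t ↔ s < t := sq_iff (by norm_num)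
theorem s1a {s t : ℚ} : sq 1 (3/2) s < sq 1 (3/2) t ↔ s < t := sq_iff (by norm_num)
theorem s1b {s t : ℚ} : sq (3/2) 2 s < sq (3/2) 2 t ↔ s < t := sq_iff (by norm_num)

theorem Data.mA (D : Data side x y k a c As Bs SA WA SC WC XA YA pA XC YC pC S F) {u : J}
    (h : isA (k u)) : u ∈ As := (D.hAs u).mpr h
theorem Data.mAB (D : Data side x y k a c As Bs SA WA SC WC XA YA pA XC YC pC S F) {u : J}
    (h : isA (k u)) : u ∈ As ∪ Bs := Finset.mem_union_left _ ((D.hAs u).mpr h)
theorem Data.mBB (D : Data side x y k a c As Bs SA WA SC WC XA YA pA XC YC pC S F) {u : J}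
    (h : isB (k u)) : u ∈ As ∪ Bs := Finset.mem_union_right _ ((D.hBs u).mpr h)

theorem iRT : isA .RT := by decide
theorem iRB : isA .RB := by decide
theorem iLB : isA .LB := by decide
theorem iLT : isA .LT := by decide
theorem jAT : isB .AT := by decide
theorem jCB : isB .CB := by decide

theorem Data.sf (D : Data side x y k a c As Bs SA WA SC WC XA YA pA XC YC pC S F) {e e' : J}
    (he : e ∈ As) (he' : e' ∈ As ∪ Bs) (hs : side e = side e') (hc : zc (k e) = zc (k e') + 1)
    (h : zs (k e) (x e) (y e) < zf (k e') (x e') (y e')) : S e < F e' := by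
  by_contra hcon
  rcases eq_or_lt_of_le (not_lt.mp hcon) with h1 | h1
  · exact D.z7 e he e' he' hc h1.symm
  · have := (D.z4 e he e' he' hs hc).mpr h1
    linarith

/-- columns are kept -/
theorem Data.presX (D : Data side x y k a c As Bs SA WA SC WC XA YA pA XC YC pC S F)
    (h : V (fun u v => side u = side v) k x y) {u v : J} (hs : side u = side v) (hx : x u < x v) :
    cX (k u) (side u) (XA u) (XC u) (x u) (S u) (F u) <
      cX (k v) (side v) (XA v) (XC v) (x v) (S v) (F v) := by
  have hcol : colr (k u) ≤ colr (k v) := by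
    by_contra hc
    have := h.cols v u hs.symm (by omega)
    linarith
  rcases lt_or_eq_of_le hcol with hlt | heq
  · have h1 := (cX_range (k u) (side u) (XA u) (XC u) (x u) (S u) (F u)).2
    have h2 := (cX_range (k v) (side v) (XA v) (XC v) (x v) (S v) (F v)).1
    have h3 := hi_le_lo hlt (colr_le _)
    linarith
  have hA : (k u = .A ∨ k u = .AT) → (k v = .A ∨ k v = .AT) → XA v < XA u := by
    intro h1 h2
    apply D.a1 u _ v _ hs hx
    · rw [Finset.mem_union, D.hSA, D.hWA]; exact h1
    · rw [Finset.mem_union, D.hSA, D.hWA]; exact h2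
  have hC : (k u = .C ∨ k u = .CB) → (k v = .C ∨ k v = .CB) → XC u < XC v := by
    intro h1 h2
    apply D.c1 u _ v _ hs hx
    · rw [Finset.mem_union, D.hSC, D.hWC]; exact h1
    · rw [Finset.mem_union, D.hSC, D.hWC]; exact h2
  cases hu : k u <;> cases hv : k v <;>
    first
    | (exfalso; rw [hu, hv] at heq; revert heq; decide)
    | skip
  all_goals simp only [cX]
  all_goals
    first
    | (rw [s01]; have := hA (by rw [hu]; simp) (by rw [hv]; simp); linarith)
    | (rw [s23]; exact hC (by rw [hu]; simp) (by rw [hv]; simp))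
    | skip
  · rw [← hs]
    cases side u
    · simp only [Bool.false_eq_true, if_false]; exact s1a.mpr hx
    · simp only [if_true]; exact s1b.mpr hx
  · -- LT, LT
    have := (D.z2 v (D.mA (by rw [hv]; exact iLT)) u (D.mA (by rw [hu]; exact iLT)) hs.symm
      (by rw [hu, hv])).mp (by rw [hu, hv]; simp only [zs]; linarith)
    have := s45.mpr this
    linarith
  · -- LT, LB
    have := (D.z4 u (D.mA (by rw [hu]; exact iLT)) v (D.mAB (by rw [hv]; exact iLB)) hs
      (by rw [hu, hv]; decide)).mp (by rw [hu, hv]; simp only [zs, zf]; linarith)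
    have := s45.mpr this
    linarith
  · -- RT, RT
    have := (D.z3 u (D.mAB (by rw [hu]; exact iRT)) v (D.mAB (by rw [hv]; exact iRT)) hs
      (by rw [hu, hv])).mp (by rw [hu, hv]; simp only [zf]; linarith)
    exact s45.mpr this
  · -- RT, RB
    have := (D.z4 v (D.mA (by rw [hv]; exact iRB)) u (D.mAB (by rw [hu]; exact iRT)) hs.symm
      (by rw [hu, hv]; decide)).mp (by rw [hu, hv]; simp only [zs, zf]; linarith)
    exact s45.mpr this
  · -- LB, LT
    have := D.sf (D.mA (by rw [hv]; exact iLT)) (D.mAB (by rw [hu]; exact iLB)) hs.symm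
      (by rw [hu, hv]; decide) (by rw [hu, hv]; simp only [zs, zf]; linarith)
    have := s45.mpr this
    linarith
  · -- LB, LB
    have := (D.z3 v (D.mAB (by rw [hv]; exact iLB)) u (D.mAB (by rw [hu]; exact iLB)) hs.symm
      (by rw [hu, hv])).mp (by rw [hu, hv]; simp only [zf]; linarith)
    have := s45.mpr this
    linarith
  · -- RB, RT
    have := D.sf (D.mA (by rw [hu]; exact iRB)) (D.mAB (by rw [hv]; exact iRT)) hs
      (by rw [hu, hv]; decide) (by rw [hu, hv]; simp only [zs, zf]; linarith)
    exact s45.mpr this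
  · -- RB, RB
    have := (D.z2 u (D.mA (by rw [hu]; exact iRB)) v (D.mA (by rw [hv]; exact iRB)) hs
      (by rw [hu, hv])).mp (by rw [hu, hv]; simp only [zs]; linarith)
    exact s45.mpr this

/-- rows are kept -/
theorem Data.presY (D : Data side x y k a c As Bs SA WA SC WC XA YA pA XC YC pC S F)
    (h : V (fun u v => side u = side v) k x y) {u v : J} (hs : side u = side v) (hy : y u < y v) :
    cY (k u) (side u) (YA u) (YC u) (y u) (S u) (F u) <
      cY (k v) (side v) (YA v) (YC v) (y v) (S v) (F v) := by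
  have hrow : rowr (k u) ≤ rowr (k v) := by
    by_contra hc
    have := h.rows v u hs.symm (by omega)
    linarith
  rcases lt_or_eq_of_le hrow with hlt | heq
  · have h1 := (cY_range (k u) (side u) (YA u) (YC u) (y u) (S u) (F u)).2
    have h2 := (cY_range (k v) (side v) (YA v) (YC v) (y v) (S v) (F v)).1
    have h3 := hi_le_lo hlt (rowr_le _)
    linarith
  -- exits on one line
  have hFF : ∀ u v : J, side u = side v → u ∈ As ∪ Bs → v ∈ As ∪ Bs → zc (k u) = zc (k v) →
      zf (k u) (x u) (y u) < zf (k v) (x v) (y v) → F u < F v :=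
    fun u v hs hu hv hc hh => (D.z3 u hu v hv hs hc).mp hh
  have hSS : ∀ u v : J, side u = side v → u ∈ As → v ∈ As → zc (k u) = zc (k v) →
      zs (k u) (x u) (y u) < zs (k v) (x v) (y v) → S u < S v :=
    fun u v hs hu hv hc hh => (D.z2 u hu v hv hs hc).mp hh
  have hFS : ∀ u v : J, side u = side v → u ∈ As ∪ Bs → v ∈ As → zc (k v) = zc (k u) + 1 →
      zf (k u) (x u) (y u) < zs (k v) (x v) (y v) → F u < S v :=
    fun u v hs hu hv hc hh => (D.z4 v hv u hu hs.symm hc).mp hh
  have hSF : ∀ u v : J, side u = side v → u ∈ As → v ∈ As ∪ Bs → zc (k u) = zc (k v) + 1 →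
      zs (k u) (x u) (y u) < zf (k v) (x v) (y v) → S u < F v :=
    fun u v hs hu hv hc hh => D.sf hu hv hs hc hh
  have mem : ∀ u : J, isA (k u) ∨ isB (k u) → u ∈ As ∪ Bs := by
    intro u hu
    rcases hu with hu | hu
    · exact D.mAB hu
    · exact D.mBB hu
  cases hu : k u <;> cases hv : k v <;>
    first
    | (exfalso; rw [hu, hv] at heq; revert heq; decide)
    | skip
  all_goals simp only [cY]
  all_goals
    first
    | (rw [s45]
       first
       | exact hFF u v hs (mem u (by rw [hu]; decide)) (mem v (by rw [hv]; decide))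
          (by first | (rw [hu, hv]; done) | (rw [hu, hv]; decide)) (by rw [hu, hv]; simp only [zf]; linarith)
       | exact hSS u v hs (D.mA (by rw [hu]; decide)) (D.mA (by rw [hv]; decide))
          (by first | (rw [hu, hv]; done) | (rw [hu, hv]; decide)) (by rw [hu, hv]; simp only [zs]; linarith)
       | exact hFS u v hs (mem u (by rw [hu]; decide)) (D.mA (by rw [hv]; decide))
          (by first | (rw [hu, hv]; done) | (rw [hu, hv]; decide)) (by rw [hu, hv]; simp only [zf, zs]; linarith)
       | exact hSF u v hs (D.mA (by rw [hu]; decide)) (mem v (by rw [hv]; decide))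
          (by first | (rw [hu, hv]; done) | (rw [hu, hv]; decide)) (by rw [hu, hv]; simp only [zf, zs]; linarith))
    | (rw [neg_lt_neg_iff, s45]
       first
       | exact hFF v u hs.symm (mem v (by rw [hv]; decide)) (mem u (by rw [hu]; decide))
          (by first | (rw [hu, hv]; done) | (rw [hu, hv]; decide)) (by rw [hu, hv]; simp only [zf]; linarith)
       | exact hSS v u hs.symm (D.mA (by rw [hv]; decide)) (D.mA (by rw [hu]; decide))
          (by first | (rw [hu, hv]; done) | (rw [hu, hv]; decide)) (by rw [hu, hv]; simp only [zs]; linarith)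
       | exact hFS v u hs.symm (mem v (by rw [hv]; decide)) (D.mA (by rw [hu]; decide))
          (by first | (rw [hu, hv]; done) | (rw [hu, hv]; decide)) (by rw [hu, hv]; simp only [zf, zs]; linarith)
       | exact hSF v u hs.symm (D.mA (by rw [hv]; decide)) (mem u (by rw [hu]; decide))
          (by first | (rw [hu, hv]; done) | (rw [hu, hv]; decide)) (by rw [hu, hv]; simp only [zf, zs]; linarith))
    | (rw [s01]; have := D.a2 u ((D.hSA u).mpr hu) v ((D.hSA v).mpr hv) hs hy; linarith)
    | (rw [s23]; exact D.c2 u ((D.hSC u).mpr hu) v ((D.hSC v).mpr hv) hs hy)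
    | skip
  · rw [← hs]
    cases side u
    · simp only [Bool.false_eq_true, if_false]; exact s1a.mpr hy
    · simp only [if_true]; exact s1b.mpr hy

end

end Pool.Agent.U591.AM
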