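import Mathlib
import Pool.Agent.U591.AM.Stm
import Pool.Agent.U591.AM.PG
import Pool.Agent.U591.AM.PM1
import Pool.Agent.U591.AM.PM2
import Pool.Agent.U591.AM.PM3

namespace Pool.Agent.U591.AM

theorem contig {J : Type} [DecidableEq J] {side : J → Bool} {S W : Finset J} {X pos x : J → ℚ}
    {m : Bool → J}
    (h5 : ∀ u ∈ S ∪ W, ∀ v ∈ S ∪ W, side u ≠ side v → X u = X v → u = m (side u) ∧ v = m (side v))
    (hm : ∀ b, m b ∉ W)
    (h10 : ∀ u ∈ W, ∀ v ∈ W, Grp side S x u v → X u < X v → ∀ w ∈ S ∪ W,
      X u < X w → X w < X v → w ∈ W ∧ side w = side u)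
    (h11 : ∀ u ∈ W, ∀ v ∈ W, X u < X v → pos v < pos u → Grp side S x u v)
    {u v t : J} (hu : u ∈ W) (hv : v ∈ W) (ht : t ∈ W) (hg : Grp side S x u v)
    (hs : side t ≠ side u) (h1 : pos u < pos t) (h2 : pos t < pos v) : False := by
  have hne : ∀ w ∈ W, side t ≠ side w → X t ≠ X w := by
    intro w hw hsw he
    have := (h5 t (Finset.mem_union_right _ ht) w (Finset.mem_union_right _ hw) hsw he).1
    rw [this] at ht
    exact hm _ ht
  rcases lt_or_gt_of_ne (hne u hu hs) with h | h
  · exact hs (h11 t ht u hu h h1).1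
  · rcases lt_or_gt_of_ne (hne v hv (by rw [← hg.1]; exact hs)) with h' | h'
    · exact hs (h10 u hu v hv hg (h.trans h') t (Finset.mem_union_right _ ht) h h').2
    · exact hs ((h11 v hv t ht h' h2).1.symm.trans hg.1.symm)

section
variable {J : Type} [DecidableEq J] {side : J → Bool} {x y : J → ℚ} {k : J → K}
  {a c : Bool → J} {As Bs SA WA SC WC : Finset J} {XA YA pA XC YC pC S F : J → ℚ}

theorem Data.finalV (D : Data side x y k a c As Bs SA WA SC WC XA YA pA XC YC pC S F)
    (hka : ∀ b, k (a b) = .A) (hkc : ∀ b, k (c b) = .C)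
    (hxi : ∀ u v, side u = side v → x u = x v → u = v)
    (hyi : ∀ u v, side u = side v → y u = y v → u = v)
    (h : V (fun u v => side u = side v) k x y) :
    V (fun _ _ => True) k (fun u => cX (k u) (side u) (XA u) (XC u) (x u) (S u) (F u))
      (fun u => cY (k u) (side u) (YA u) (YC u) (y u) (S u) (F u)) := by
  set X : J → ℚ := fun u => cX (k u) (side u) (XA u) (XC u) (x u) (S u) (F u) with hX
  set Y : J → ℚ := fun u => cY (k u) (side u) (YA u) (YC u) (y u) (S u) (F u) with hY
  have revX : ∀ u v, side u = side v → X u < X v → x u < x v := by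
    intro u v hs hlt
    rcases lt_trichotomy (x u) (x v) with h1 | h1 | h1
    · exact h1
    · have := hxi u v hs h1
      rw [this] at hlt; exact absurd hlt (lt_irrefl _)
    · exact absurd (D.presX h hs.symm h1) (not_lt.mpr hlt.le)
  have revY : ∀ u v, side u = side v → Y u < Y v → y u < y v := by
    intro u v hs hlt
    rcases lt_trichotomy (y u) (y v) with h1 | h1 | h1
    · exact h1
    · have := hyi u v hs h1
      rw [this] at hlt; exact absurd hlt (lt_irrefl _)
    · exact absurd (D.presY h hs.symm h1) (not_lt.mpr hlt.le)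
  have own : ∀ i j p q, side i = side j → side i = side p → side i = side q → pat X Y i j p q →
      pat x y i j p q := by
    intro i j p q s1 s2 s3 hp
    obtain ⟨h1, h2, h3, h4, h5, h6⟩ := hp
    exact ⟨revX _ _ s1 h1, revX _ _ (s1.symm.trans s2) h2, revX _ _ (s2.symm.trans s3) h3,
      revY _ _ (s1.symm.trans s3) h4, revY _ _ s3.symm h5, revY _ _ s2 h6⟩
  have mU : ∀ u : J, isA (k u) ∨ isB (k u) → u ∈ As ∪ Bs := by
    intro u hu
    rcases hu with hu | hu
    · exact D.mAB hu
    · exact D.mBB hu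
  have hcols : ∀ u v, colr (k u) < colr (k v) → X u < X v := by
    intro u v hlt
    have h1 := (cX_range (k u) (side u) (XA u) (XC u) (x u) (S u) (F u)).2
    have h2 := (cX_range (k v) (side v) (XA v) (XC v) (x v) (S v) (F v)).1
    have h3 := hi_le_lo hlt (colr_le _)
    simp only [hX]
    linarith
  have hrows : ∀ u v, rowr (k u) < rowr (k v) → Y u < Y v := by
    intro u v hlt
    have h1 := (cY_range (k u) (side u) (YA u) (YC u) (y u) (S u) (F u)).2
    have h2 := (cY_range (k v) (side v) (YA v) (YC v) (y v) (S v) (F v)).1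
    have h3 := hi_le_lo hlt (rowr_le _)
    simp only [hY]
    linarith
  -- translations of the queue conditions
  have Z1 : ∀ b e : J, isB (k b) → isA (k e) → zc (k e) = zc (k b) → F b < F e :=
    fun b e hb he hc => D.z9.z1 b ((D.hBs b).mpr hb) e (D.mA he) hc trivial
  have Z2 : ∀ e w e' : J, isA (k e) → (isA (k w) ∨ isB (k w)) → isA (k e') →
      zc (k e) = zc (k e') → zc (k e) = zc (k w) + 1 → S e < F w → F w < S e' → F e < F e' :=
    fun e w e' he hw he' hc hc' h1 h2 =>
      D.z9.z2 e (D.mA he) e' (D.mA he') w (mU w hw) hc hc' trivial trivial h1 h2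
  have FA : ∀ u, k u = .AT → F u = pA u := by
    intro u hu
    rw [D.z1 u ((D.hBs u).mpr (by rw [hu]; decide)), if_pos hu]
  have FC : ∀ u, k u = .CB → F u = pC u := by
    intro u hu
    rw [D.z1 u ((D.hBs u).mpr (by rw [hu]; decide)), if_neg (by rw [hu]; decide)]
  have gA : ∀ u v, k u = .AT → k v = .AT → X u < X v → Y u < Y v →
      Grp side SA (fun u => - x u) v u := by
    intro u v hu hv h1 h2
    simp only [hX, cX, hu, hv, s01] at h1
    simp only [hY, cY, hu, hv, s45] at h2
    rw [FA u hu, FA v hv] at h2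
    exact D.a11 v ((D.hWA v).mpr hv) u ((D.hWA u).mpr hu) (by linarith) h2
  have gC : ∀ u v, k u = .CB → k v = .CB → X u < X v → Y u < Y v → Grp side SC x u v := by
    intro u v hu hv h1 h2
    simp only [hX, cX, hu, hv, s23] at h1
    simp only [hY, cY, hu, hv, s45, neg_lt_neg_iff] at h2
    rw [FC u hu, FC v hv] at h2
    exact D.c11 u ((D.hWC u).mpr hu) v ((D.hWC v).mpr hv) h1 h2
  have haW : ∀ b, a b ∉ WA := by
    intro b hb
    rw [D.hWA, hka] at hb
    exact absurd hb (by decide)
  have hcW : ∀ b, c b ∉ WC := by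
    intro b hb
    rw [D.hWC, hkc] at hb
    exact absurd hb (by decide)
  refine ⟨fun u v _ => hcols u v, fun u v _ => hrows u v, ?_, ?_, ?_, ?_, ?_, ?_, ?_, ?_, ?_, ?_, ?_,
    ?_, ?_, ?_, ?_, ?_, ?_, ?_⟩
  · -- av
    intro i j p q hj hp hq _ _ _ hpat
    have hpat' := hpat
    obtain ⟨h1, h2, h3, h4, h5, h6⟩ := hpat'
    cases hi : k i <;> rw [hi] at hj hp hq
    · -- A
      simp only [hX, cX, hi, hj, hp, hq, s01] at h1 h2 h3
      simp only [hY, cY, hi, hj, hp, hq, s01] at h4 h5 h6
      exact D.a7 q ((D.hSA q).mpr hq) p ((D.hSA p).mpr hp) j ((D.hSA j).mpr hj) i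
        ((D.hSA i).mpr hi) trivial trivial trivial
        ⟨by linarith, by linarith, by linarith, by linarith, by linarith, by linarith⟩
    · -- M
      have key : ∀ u v, k u = .M → k v = .M → X u < X v → Y v < Y u → side u = side v := by
        intro u v hu hv g1 g2
        simp only [hX, cX, hu, hv] at g1
        simp only [hY, cY, hu, hv] at g2
        have b1 := fun t => sq_lo (show (3/2:ℚ) < 2 by norm_num) t
        have c2 := fun t => sq_hi (show (1:ℚ) < 3/2 by norm_num) t
        cases hsu : side u <;> cases hsv : side v <;>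
          simp only [hsu, hsv, Bool.false_eq_true, if_false, if_true] at g1 g2 ⊢
        · exact absurd (lt_trans g2 (c2 (y u))) (not_lt.mpr (b1 _).le)
        · exact absurd (lt_trans g1 (c2 (x v))) (not_lt.mpr (b1 _).le)
      have s1 := key i j hi hj h1 (by linarith)
      have s2 := key i q hi hq (by linarith) h5
      have s3 := key p q hp hq h3 (by linarith)
      exact h.av i j p q (by rw [hi, hj]) (by rw [hi, hp]) (by rw [hi, hq]) s1 (s2.trans s3.symm) s2
        (own i j p q s1 (s2.trans s3.symm) s2 hpat)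
    · -- C
      simp only [hX, cX, hi, hj, hp, hq, s23] at h1 h2 h3
      simp only [hY, cY, hi, hj, hp, hq, s23] at h4 h5 h6
      exact D.c7 i ((D.hSC i).mpr hi) j ((D.hSC j).mpr hj) p ((D.hSC p).mpr hp) q
        ((D.hSC q).mpr hq) trivial trivial trivial ⟨h1, h2, h3, h4, h5, h6⟩
    · -- AT
      have e1 := (gA i p hi hp (by linarith) h6).1
      have e2 := (gA j q hj hq (by linarith) h4).1
      have e3 := (gA j p hj hp (by linarith) (by linarith)).1
      have s1 : side i = side j := e1.symm.trans e3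
      have s2 : side i = side p := e1.symm
      have s3 : side i = side q := s1.trans e2.symm
      exact h.av i j p q (by rw [hi, hj]) (by rw [hi, hp]) (by rw [hi, hq]) s1 s2 s3
        (own i j p q s1 s2 s3 hpat)
    · -- CB
      have e1 := (gC i p hi hp (by linarith) h6).1
      have e2 := (gC j q hj hq (by linarith) h4).1
      have e3 := (gC j p hj hp (by linarith) (by linarith)).1
      have s1 : side i = side j := e1.trans e3.symm
      have s2 : side i = side p := e1
      have s3 : side i = side q := s1.trans e2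
      exact h.av i j p q (by rw [hi, hj]) (by rw [hi, hp]) (by rw [hi, hq]) s1 s2 s3
        (own i j p q s1 s2 s3 hpat)
    · -- LT
      simp only [hX, cX, hi, hj, hp, hq, s45, neg_lt_neg_iff] at h1 h2 h3
      simp only [hY, cY, hi, hj, hp, hq, s45] at h4 h5 h6
      exact D.z9.z4 j (D.mA (by rw [hj]; decide)) q (D.mA (by rw [hq]; decide)) i
        (D.mA (by rw [hi]; decide)) p (D.mA (by rw [hp]; decide)) (by simp only [hj, hq])
        (by simp only [hj, hi]) (by simp only [hj, hp]) trivial trivial trivial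
        ⟨h4, h5, h6, h3, h2, h1⟩
    · -- RT
      simp only [hX, cX, hi, hj, hp, hq, s45] at h1 h2 h3
      simp only [hY, cY, hi, hj, hp, hq, s45] at h4 h5 h6
      exact D.z9.z4 i (D.mA (by rw [hi]; decide)) j (D.mA (by rw [hj]; decide)) p
        (D.mA (by rw [hp]; decide)) q (D.mA (by rw [hq]; decide)) (by simp only [hj, hi])
        (by simp only [hp, hi]) (by simp only [hq, hi]) trivial trivial trivial
        ⟨h1, h2, h3, h4, h5, h6⟩
    · -- LB
      simp only [hX, cX, hi, hj, hp, hq, s45, neg_lt_neg_iff] at h1 h2 h3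
      simp only [hY, cY, hi, hj, hp, hq, s45, neg_lt_neg_iff] at h4 h5 h6
      exact D.z9.z4 q (D.mA (by rw [hq]; decide)) p (D.mA (by rw [hp]; decide)) j
        (D.mA (by rw [hj]; decide)) i (D.mA (by rw [hi]; decide)) (by simp only [hp, hq])
        (by simp only [hj, hq]) (by simp only [hi, hq]) trivial trivial trivial
        ⟨h3, h2, h1, h6, h5, h4⟩
    · -- RB
      simp only [hX, cX, hi, hj, hp, hq, s45] at h1 h2 h3
      simp only [hY, cY, hi, hj, hp, hq, s45, neg_lt_neg_iff] at h4 h5 h6
      exact D.z9.z4 p (D.mA (by rw [hp]; decide)) i (D.mA (by rw [hi]; decide)) q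
        (D.mA (by rw [hq]; decide)) j (D.mA (by rw [hj]; decide)) (by simp only [hp, hi])
        (by simp only [hp, hq]) (by simp only [hp, hj]) trivial trivial trivial
        ⟨h6, h5, h4, h1, h2, h3⟩
  · -- cutA
    intro i j p q hi hj hp hq _ _ _ hpat
    obtain ⟨h1, h2, h3, h4, h5, h6⟩ := hpat
    simp only [hX, cX, hi, hj, hp, hq, s01] at h1 h2 h3
    simp only [hY, cY, hi, hj, hq, s01] at h4 h5
    exact D.a8 p ((D.hWA p).mpr hp) q ((D.hSA q).mpr hq) j ((D.hSA j).mpr hj) i
      ((D.hSA i).mpr hi) trivial trivial trivial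
      ⟨by linarith, by linarith, by linarith, by linarith, by linarith⟩
  · -- cutC
    intro i j p q hi hj hp hq _ _ _ hpat
    obtain ⟨h1, h2, h3, h4, h5, h6⟩ := hpat
    simp only [hX, cX, hi, hj, hp, hq, s23] at h1 h2 h3
    simp only [hY, cY, hi, hp, hq, s23] at h5 h6
    exact D.c8 j ((D.hWC j).mpr hj) i ((D.hSC i).mpr hi) p ((D.hSC p).mpr hp) q
      ((D.hSC q).mpr hq) trivial trivial trivial ⟨h1, h2, h3, h5, h6⟩
  · -- sepA
    intro u w v hu hw hv _ _ h1 h2
    by_contra hcon
    have h12 : X u < X v := h1.trans h2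
    have hlt : Y u < Y v := by
      refine lt_of_le_of_ne (not_lt.mp hcon) ?_
      intro he
      simp only [hY, cY, hu, hv] at he
      have := D.z6 u (D.mBB (by rw [hu]; decide)) v (D.mBB (by rw [hv]; decide)) (by rw [hu, hv])
        (sq_inj (by norm_num) he)
      rw [this] at h12; exact lt_irrefl _ h12
    have g := gA u v hu hv h12 hlt
    simp only [hX, cX, hu, hv, hw, s01] at h1 h2
    have := (D.a10 v ((D.hWA v).mpr hv) u ((D.hWA u).mpr hu) g (by linarith) w
      (Finset.mem_union_left _ ((D.hSA w).mpr hw)) (by linarith) (by linarith)).1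
    rw [D.hWA, hw] at this
    exact absurd this (by decide)
  · -- sepC
    intro u w v hu hw hv _ _ h1 h2
    by_contra hcon
    have h12 : X u < X v := h1.trans h2
    have hlt : Y u < Y v := by
      refine lt_of_le_of_ne (not_lt.mp hcon) ?_
      intro he
      simp only [hY, cY, hu, hv, neg_inj] at he
      have := D.z6 u (D.mBB (by rw [hu]; decide)) v (D.mBB (by rw [hv]; decide)) (by rw [hu, hv])
        (sq_inj (by norm_num) he)
      rw [this] at h12; exact lt_irrefl _ h12
    have g := gC u v hu hv h12 hlt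
    simp only [hX, cX, hu, hv, hw, s23] at h1 h2
    have := (D.c10 u ((D.hWC u).mpr hu) v ((D.hWC v).mpr hv) g (by linarith) w
      (Finset.mem_union_left _ ((D.hSC w).mpr hw)) h1 h2).1
    rw [D.hWC, hw] at this
    exact absurd this (by decide)
  · -- z1T
    intro u v hu hv _
    simp only [hY, cY, hu, hv, s45]
    exact Z1 u v (by rw [hu]; decide) (by rw [hv]; decide) (by rw [hu, hv]; decide)
  · -- z1B
    intro u v hu hv _
    simp only [hY, cY, hu, hv, s45, neg_lt_neg_iff]
    exact Z1 v u (by rw [hv]; decide) (by rw [hu]; decide) (by rw [hu, hv]; decide)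
  · -- z2RT
    intro u w v hu hw hv _ _ h1 h2
    rcases hw with hw | hw
    · simp only [hY, cY, hu, hw, hv, s45] at h1 h2
      simp only [hX, cX, hu, hv, s45]
      exact Z2 u w v (by rw [hu]; decide) (by rw [hw]; decide) (by rw [hv]; decide)
        (by rw [hu, hv]) (by rw [hu, hw]; decide) h1 h2
    · simp only [hY, cY, hu, hw, hv, s45] at h1 h2
      simp only [hX, cX, hu, hv, s45]
      exact Z2 u w v (by rw [hu]; decide) (by rw [hw]; decide) (by rw [hv]; decide)
        (by rw [hu, hv]) (by rw [hu, hw]; decide) h1 h2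
  · -- z2RB
    intro u w v hu hw hv _ _ h1 h2
    simp only [hX, cX, hu, hw, hv, s45] at h1 h2
    simp only [hY, cY, hu, hv, s45, neg_lt_neg_iff]
    exact Z2 u w v (by rw [hu]; decide) (by rw [hw]; decide) (by rw [hv]; decide)
      (by rw [hu, hv]) (by rw [hu, hw]; decide) h1 h2
  · -- z2LB
    intro u w v hu hw hv _ _ h1 h2
    rcases hw with hw | hw
    · simp only [hY, cY, hu, hw, hv, s45, neg_lt_neg_iff] at h1 h2
      simp only [hX, cX, hu, hv, s45, neg_lt_neg_iff]
      exact Z2 v w u (by rw [hv]; decide) (by rw [hw]; decide) (by rw [hu]; decide)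
        (by rw [hu, hv]) (by rw [hv, hw]; decide) h2 h1
    · simp only [hY, cY, hu, hw, hv, s45, neg_lt_neg_iff] at h1 h2
      simp only [hX, cX, hu, hv, s45, neg_lt_neg_iff]
      exact Z2 v w u (by rw [hv]; decide) (by rw [hw]; decide) (by rw [hu]; decide)
        (by rw [hu, hv]) (by rw [hv, hw]; decide) h2 h1
  · -- z2LT
    intro u w v hu hw hv _ _ h1 h2
    simp only [hX, cX, hu, hw, hv, s45, neg_lt_neg_iff] at h1 h2
    simp only [hY, cY, hu, hv, s45]
    exact Z2 v w u (by rw [hv]; decide) (by rw [hw]; decide) (by rw [hu]; decide)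
      (by rw [hu, hv]) (by rw [hv, hw]; decide) h2 h1
  · -- z3
    intro i j p q hi hj hp hq _ _ _ hpat
    obtain ⟨h1, h2, h3, h4, h5, h6⟩ := hpat
    simp only [hX, cX, hi, hj, hp, hq, s45, neg_lt_neg_iff] at h1 h3
    simp only [hY, cY, hi, hj, hp, hq, s45, neg_lt_neg_iff] at h4 h6
    exact D.z9.z3 p (D.mA (by rw [hp]; decide)) q (D.mA (by rw [hq]; decide)) j
      (D.mA (by rw [hj]; decide)) i (D.mA (by rw [hi]; decide)) (by simp only [hp, hq]; decide)
      (by simp only [hj, hq]; decide) (by simp only [hj, hi]; decide) trivial trivial trivial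
      ⟨h3, h4, h1, h6⟩
  · -- cutRT
    intro i j p q hi hj hp hq _ _ _ hpat
    obtain ⟨h1, h2, h3, h4, h5, h6⟩ := hpat
    simp only [hX, cX, hi, hj, hp, hq, s45] at h1 h2 h3
    simp only [hY, cY, hi, hp, hq, s45] at h5 h6
    exact D.z9.z5 i (D.mA (by rw [hi]; decide)) p (D.mA (by rw [hp]; decide)) q
      (D.mA (by rw [hq]; decide)) j (D.mA (by rw [hj]; decide)) (by simp only [hp, hi])
      (by simp only [hq, hi]) (by simp only [hj, hi]; decide) trivial trivial trivial
      ⟨h1, h2, h3, h5, h6⟩
  · -- cutRB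
    intro i j p q hi hj hp hq _ _ _ hpat
    obtain ⟨h1, h2, h3, h4, h5, h6⟩ := hpat
    simp only [hX, cX, hj, hp, hq, s45] at h2 h3
    simp only [hY, cY, hi, hj, hp, hq, s45, neg_lt_neg_iff] at h4 h5 h6
    exact D.z9.z5 p (D.mA (by rw [hp]; decide)) q (D.mA (by rw [hq]; decide)) j
      (D.mA (by rw [hj]; decide)) i (D.mA (by rw [hi]; decide)) (by simp only [hp, hq])
      (by simp only [hp, hj]) (by simp only [hp, hi]; decide) trivial trivial trivial
      ⟨h6, h5, h4, h2, h3⟩
  · -- cutLB
    intro i j p q hi hj hp hq _ _ _ hpat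
    obtain ⟨h1, h2, h3, h4, h5, h6⟩ := hpat
    simp only [hX, cX, hi, hj, hp, hq, s45, neg_lt_neg_iff] at h1 h2 h3
    simp only [hY, cY, hi, hj, hq, s45, neg_lt_neg_iff] at h4 h5
    exact D.z9.z5 q (D.mA (by rw [hq]; decide)) j (D.mA (by rw [hj]; decide)) i
      (D.mA (by rw [hi]; decide)) p (D.mA (by rw [hp]; decide)) (by simp only [hq, hj])
      (by simp only [hq, hi]) (by simp only [hq, hp]; decide) trivial trivial trivial
      ⟨h3, h2, h1, h5, h4⟩
  · -- cutLT
    intro i j p q hi hj hp hq _ _ _ hpat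
    obtain ⟨h1, h2, h3, h4, h5, h6⟩ := hpat
    simp only [hX, cX, hi, hj, hp, s45, neg_lt_neg_iff] at h1 h2
    simp only [hY, cY, hi, hj, hp, hq, s45] at h4 h5 h6
    exact D.z9.z5 j (D.mA (by rw [hj]; decide)) i (D.mA (by rw [hi]; decide)) p
      (D.mA (by rw [hp]; decide)) q (D.mA (by rw [hq]; decide)) (by simp only [hj, hi])
      (by simp only [hj, hp]) (by simp only [hj, hq]; decide) trivial trivial trivial
      ⟨h4, h5, h6, h2, h1⟩
  · -- grpA
    intro i j p q hi hj hp hq _ _ _ hpat
    have hpat' := hpat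
    obtain ⟨h1, h2, h3, h4, h5, h6⟩ := hpat'
    have e1 := gA i p hi hp (by linarith) h6
    have e3 := gA j p hj hp (by linarith) (by linarith)
    have s1 : side i = side j := e1.1.symm.trans e3.1
    by_cases hsq : side i = side q
    · exact h.grpA i j p q hi hj hp hq s1 e1.1.symm hsq (own i j p q s1 e1.1.symm hsq hpat)
    · simp only [hY, cY, hi, hj, hq, s45] at h4 h5
      obtain ⟨x', hx', b1, b2, b3, b4⟩ := D.z8 q (D.mA (by rw [hq]; decide)) j
        (D.mBB (by rw [hj]; decide)) (by rw [hq, hj]; decide)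
        (by rw [← s1]; exact hsq) h4
      have hx'B : k x' = .AT := by
        rcases Finset.mem_union.mp hx' with hh | hh
        · exfalso
          have hz := D.z9.z1 i ((D.hBs i).mpr (by rw [hi]; decide)) x' hh
            (by show zc (k x') = zc (k i); rw [b1, hj, hi]) trivial
          linarith
        · rcases (D.hBs x').mp hh with hh | hh
          · exact hh
          · rw [hh, hj] at b1; exact absurd b1 (by decide)
      have g : Grp side SA (fun u => - x u) j i := e3.symm.trans e1
      refine contig D.a5 haW D.a10 D.a11 ((D.hWA j).mpr hj) ((D.hWA i).mpr hi)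
        ((D.hWA x').mpr hx'B) g ?_ (by rw [← FA j hj, ← FA x' hx'B]; exact b3)
        (by rw [← FA i hi, ← FA x' hx'B]; linarith)
      rw [b2, ← s1]; exact fun hh => hsq hh.symm
  · -- grpC
    intro i j p q hi hj hp hq _ _ _ hpat
    have hpat' := hpat
    obtain ⟨h1, h2, h3, h4, h5, h6⟩ := hpat'
    have e1 := gC j p hj hp (by linarith) (by linarith)
    have e3 := gC j q hj hq (by linarith) (by linarith)
    have s1 : side p = side q := e1.1.symm.trans e3.1
    by_cases hsi : side i = side p
    · exact h.grpC i j p q hi hj hp hq (hsi.trans e1.1.symm) hsi (hsi.trans s1)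
        (own i j p q (hsi.trans e1.1.symm) hsi (hsi.trans s1) hpat)
    · simp only [hY, cY, hi, hp, hq, s45, neg_lt_neg_iff] at h5 h6
      obtain ⟨x', hx', b1, b2, b3, b4⟩ := D.z8 i (D.mA (by rw [hi]; decide)) p
        (D.mBB (by rw [hp]; decide)) (by rw [hi, hp]; decide)
        (fun hh => hsi hh.symm) h6
      have hx'B : k x' = .CB := by
        rcases Finset.mem_union.mp hx' with hh | hh
        · exfalso
          have hz := D.z9.z1 q ((D.hBs q).mpr (by rw [hq]; decide)) x' hh
            (by show zc (k x') = zc (k q); rw [b1, hp, hq]) trivial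
          linarith
        · rcases (D.hBs x').mp hh with hh | hh
          · rw [hh, hp] at b1; exact absurd b1 (by decide)
          · exact hh
      have g : Grp side SC x p q := e1.symm.trans e3
      refine contig D.c5 hcW D.c10 D.c11 ((D.hWC p).mpr hp) ((D.hWC q).mpr hq)
        ((D.hWC x').mpr hx'B) g ?_ (by rw [← FC p hp, ← FC x' hx'B]; exact b3)
        (by rw [← FC q hq, ← FC x' hx'B]; linarith)
      rw [b2]; exact hsi

end

end Pool.Agent.U591.AM
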