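import Mathlib
import Pool.Agent.U591.AM.Stm
import Pool.Agent.U591.AM.PG
import Pool.Agent.U591.AM.PM1
import Pool.Agent.U591.AM.PM2
import Pool.Agent.U591.AM.PM3
import Pool.Agent.U591.AM.PM4

namespace Pool.Agent.U591.AM

section
variable {J : Type} [DecidableEq J] {side : J → Bool} {x y : J → ℚ} {k : J → K}
  {a c : Bool → J} {As Bs SA WA SC WC : Finset J} {XA YA pA XC YC pC S F : J → ℚ}

theorem Data.distX (D : Data side x y k a c As Bs SA WA SC WC XA YA pA XC YC pC S F)
    {u v : J} (hs : side u ≠ side v)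
    (he : cX (k u) (side u) (XA u) (XC u) (x u) (S u) (F u) =
      cX (k v) (side v) (XA v) (XC v) (x v) (S v) (F v)) :
    (u = a (side u) ∧ v = a (side v)) ∨ (u = c (side u) ∧ v = c (side v)) := by
  have heq : colr (k u) = colr (k v) := by
    rcases lt_trichotomy (colr (k u)) (colr (k v)) with h | h | h
    · have h1 := (cX_range (k u) (side u) (XA u) (XC u) (x u) (S u) (F u)).2
      have h2 := (cX_range (k v) (side v) (XA v) (XC v) (x v) (S v) (F v)).1
      have h3 := hi_le_lo h (colr_le _)
      linarith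
    · exact h
    · have h1 := (cX_range (k v) (side v) (XA v) (XC v) (x v) (S v) (F v)).2
      have h2 := (cX_range (k u) (side u) (XA u) (XC u) (x u) (S u) (F u)).1
      have h3 := hi_le_lo h (colr_le _)
      linarith
  have hne : u ≠ v := fun h => hs (by rw [h])
  have hA : (k u = .A ∨ k u = .AT) → (k v = .A ∨ k v = .AT) → XA u = XA v →
      u = a (side u) ∧ v = a (side v) := by
    intro h1 h2 h3
    apply D.a5 u _ v _ hs h3
    · rw [Finset.mem_union, D.hSA, D.hWA]; exact h1
    · rw [Finset.mem_union, D.hSA, D.hWA]; exact h2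
  have hC : (k u = .C ∨ k u = .CB) → (k v = .C ∨ k v = .CB) → XC u = XC v →
      u = c (side u) ∧ v = c (side v) := by
    intro h1 h2 h3
    apply D.c5 u _ v _ hs h3
    · rw [Finset.mem_union, D.hSC, D.hWC]; exact h1
    · rw [Finset.mem_union, D.hSC, D.hWC]; exact h2
  have i01 : ∀ {s t : ℚ}, sq 0 1 s = sq 0 1 t → s = t := fun h => sq_inj (by norm_num) h
  have i23 : ∀ {s t : ℚ}, sq 2 3 s = sq 2 3 t → s = t := fun h => sq_inj (by norm_num) h
  have i45 : ∀ {s t : ℚ}, sq 4 5 s = sq 4 5 t → s = t := fun h => sq_inj (by norm_num) h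
  cases hu : k u <;> cases hv : k v <;>
    first
    | (exfalso; rw [hu, hv] at heq; revert heq; decide)
    | skip
  all_goals rw [hu, hv] at he
  all_goals simp only [cX] at he
  all_goals
    first
    | exact Or.inl (hA (by rw [hu]; decide) (by rw [hv]; decide) (neg_injective (i01 he)))
    | exact Or.inr (hC (by rw [hu]; decide) (by rw [hv]; decide) (i23 he))
    | (exfalso; exact hne (D.z5 u (D.mA (by rw [hu]; decide)) v (D.mA (by rw [hv]; decide))
        (by rw [hu, hv]) (i45 he)))
    | (exfalso; exact hne (D.z5 u (D.mA (by rw [hu]; decide)) v (D.mA (by rw [hv]; decide))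
        (by rw [hu, hv]) (i45 (neg_injective he))))
    | (exfalso; exact hne (D.z6 u (D.mAB (by rw [hu]; decide)) v (D.mAB (by rw [hv]; decide))
        (by rw [hu, hv]) (i45 he)))
    | (exfalso; exact hne (D.z6 u (D.mAB (by rw [hu]; decide)) v (D.mAB (by rw [hv]; decide))
        (by rw [hu, hv]) (i45 (neg_injective he))))
    | (exfalso; exact D.z7 u (D.mA (by rw [hu]; decide)) v (D.mAB (by rw [hv]; decide))
        (by rw [hu, hv]; decide) (i45 he))
    | (exfalso; exact D.z7 u (D.mA (by rw [hu]; decide)) v (D.mAB (by rw [hv]; decide))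
        (by rw [hu, hv]; decide) (i45 (neg_injective he)))
    | (exfalso; exact D.z7 v (D.mA (by rw [hv]; decide)) u (D.mAB (by rw [hu]; decide))
        (by rw [hu, hv]; decide) (i45 he).symm)
    | (exfalso; exact D.z7 v (D.mA (by rw [hv]; decide)) u (D.mAB (by rw [hu]; decide))
        (by rw [hu, hv]; decide) (i45 (neg_injective he)).symm)
    | skip
  · exfalso
    have b1 := fun t => sq_lo (show (3/2:ℚ) < 2 by norm_num) t
    have c2 := fun t => sq_hi (show (1:ℚ) < 3/2 by norm_num) t
    cases hsu : side u <;> cases hsv : side v <;> rw [hsu, hsv] at hs <;>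
      simp only [hsu, hsv, Bool.false_eq_true, if_false, if_true] at he
    · exact hs rfl
    · have := c2 (x u); rw [he] at this; exact absurd this (not_lt.mpr (b1 _).le)
    · have := c2 (x v); rw [← he] at this; exact absurd this (not_lt.mpr (b1 _).le)
    · exact hs rfl

theorem Data.distY (D : Data side x y k a c As Bs SA WA SC WC XA YA pA XC YC pC S F)
    {u v : J} (hs : side u ≠ side v)
    (he : cY (k u) (side u) (YA u) (YC u) (y u) (S u) (F u) =
      cY (k v) (side v) (YA v) (YC v) (y v) (S v) (F v)) :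
    (u = a (side u) ∧ v = a (side v)) ∨ (u = c (side u) ∧ v = c (side v)) := by
  have heq : rowr (k u) = rowr (k v) := by
    rcases lt_trichotomy (rowr (k u)) (rowr (k v)) with h | h | h
    · have h1 := (cY_range (k u) (side u) (YA u) (YC u) (y u) (S u) (F u)).2
      have h2 := (cY_range (k v) (side v) (YA v) (YC v) (y v) (S v) (F v)).1
      have h3 := hi_le_lo h (rowr_le _)
      linarith
    · exact h
    · have h1 := (cY_range (k v) (side v) (YA v) (YC v) (y v) (S v) (F v)).2
      have h2 := (cY_range (k u) (side u) (YA u) (YC u) (y u) (S u) (F u)).1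
      have h3 := hi_le_lo h (rowr_le _)
      linarith
  have hne : u ≠ v := fun h => hs (by rw [h])
  have mU : ∀ u : J, isA (k u) ∨ isB (k u) → u ∈ As ∪ Bs := by
    intro u hu
    rcases hu with hu | hu
    · exact D.mAB hu
    · exact D.mBB hu
  have i01 : ∀ {s t : ℚ}, sq 0 1 s = sq 0 1 t → s = t := fun h => sq_inj (by norm_num) h
  have i23 : ∀ {s t : ℚ}, sq 2 3 s = sq 2 3 t → s = t := fun h => sq_inj (by norm_num) h
  have i45 : ∀ {s t : ℚ}, sq 4 5 s = sq 4 5 t → s = t := fun h => sq_inj (by norm_num) h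
  have hFF : zc (k u) = zc (k v) → (isA (k u) ∨ isB (k u)) → (isA (k v) ∨ isB (k v)) →
      F u = F v → False := fun h1 h2 h3 h4 => hne (D.z6 u (mU u h2) v (mU v h3) h1 h4)
  have hSS : zc (k u) = zc (k v) → isA (k u) → isA (k v) →
      S u = S v → False := fun h1 h2 h3 h4 => hne (D.z5 u (D.mA h2) v (D.mA h3) h1 h4)
  have hSF : zc (k u) = zc (k v) + 1 → isA (k u) → (isA (k v) ∨ isB (k v)) →
      S u = F v → False := fun h1 h2 h3 h4 => D.z7 u (D.mA h2) v (mU v h3) h1 h4
  have hFS : zc (k v) = zc (k u) + 1 → (isA (k u) ∨ isB (k u)) → isA (k v) →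
      F u = S v → False := fun h1 h2 h3 h4 => D.z7 v (D.mA h3) u (mU u h2) h1 h4.symm
  cases hu : k u <;> cases hv : k v <;>
    first
    | (exfalso; rw [hu, hv] at heq; revert heq; decide)
    | skip
  all_goals rw [hu, hv] at he
  all_goals rw [hu, hv] at hFF hSS hSF hFS
  all_goals simp only [cY] at he
  all_goals
    first
    | exact Or.inl (D.a6 u ((D.hSA u).mpr hu) v ((D.hSA v).mpr hv) hs (neg_injective (i01 he)))
    | exact Or.inr (D.c6 u ((D.hSC u).mpr hu) v ((D.hSC v).mpr hv) hs (i23 he))
    | (exfalso; exact hFF (by decide) (by decide) (by decide) (i45 he))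
    | (exfalso; exact hFF (by decide) (by decide) (by decide) (i45 (neg_injective he)))
    | (exfalso; exact hSS (by decide) (by decide) (by decide) (i45 he))
    | (exfalso; exact hSS (by decide) (by decide) (by decide) (i45 (neg_injective he)))
    | (exfalso; exact hSF (by decide) (by decide) (by decide) (i45 he))
    | (exfalso; exact hSF (by decide) (by decide) (by decide) (i45 (neg_injective he)))
    | (exfalso; exact hFS (by decide) (by decide) (by decide) (i45 he))
    | (exfalso; exact hFS (by decide) (by decide) (by decide) (i45 (neg_injective he)))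
    | skip
  · exfalso
    have b1 := fun t => sq_lo (show (3/2:ℚ) < 2 by norm_num) t
    have c2 := fun t => sq_hi (show (1:ℚ) < 3/2 by norm_num) t
    cases hsu : side u <;> cases hsv : side v <;> rw [hsu, hsv] at hs <;>
      simp only [hsu, hsv, Bool.false_eq_true, if_false, if_true] at he
    · exact hs rfl
    · have := c2 (y u); rw [he] at this; exact absurd this (not_lt.mpr (b1 _).le)
    · have := c2 (y v); rw [← he] at this; exact absurd this (not_lt.mpr (b1 _).le)
    · exact hs rfl

end

theorem t_M (hP : S_P1) (hZ : S_Z) : S_M := by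
  intro J _ _ side x y k a c ha hc hka hkc hx hy h
  obtain ⟨As, Bs, SA, WA, SC, WC, XA, YA, pA, XC, YC, pC, S, F, D⟩ :=
    exists_data (t_G hP) hZ side x y k a c ha hc hka hkc hx hy h
  refine ⟨fun u => cX (k u) (side u) (XA u) (XC u) (x u) (S u) (F u),
    fun u => cY (k u) (side u) (YA u) (YC u) (y u) (S u) (F u), ?_, ?_, ?_, ?_, ?_, ?_, ?_, ?_, ?_⟩
  · exact pres_of_imp (fun u _ v _ => hx u v) (fun u _ v _ hs hlt => D.presX h hs hlt)
  · exact pres_of_imp (fun u _ v _ => hy u v) (fun u _ v _ hs hlt => D.presY h hs hlt)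
  · simp only [hka, cX, D.a3]
  · simp only [hka, cY, D.a4]
  · simp only [hkc, cX, D.c3]
  · simp only [hkc, cY, D.c4]
  · intro u v hs he
    exact D.distX hs he
  · intro u v hs he
    exact D.distY hs he
  · exact D.finalV hka hkc hx hy h

end Pool.Agent.U591.AM
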