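import Mathlib
import Pool.Agent.U591.AM.Stm

namespace Pool.Agent.U591.AM

theorem t_T2 (hD : S_D) (hM : S_M) (hV : S_V) : S_T2 := by
  intro J _ _ side x y m hs hx0 hy0 hx hy hav
  obtain ⟨k, hka, hkc, h⟩ := hD J side x y (fun b => m b 0) (fun b => m b 1) (fun b => hs b 0)
    (fun b => hs b 1) hx0 hy0 hx hy hav
  obtain ⟨X, Y, p1, p2, e1, e2, e3, e4, d1, d2, hv⟩ := hM J side x y k (fun b => m b 0)
    (fun b => m b 1) (fun b => hs b 0) (fun b => hs b 1) hka hkc hx hy h
  refine ⟨X, Y, p1, p2, ?_, ?_, ?_, hV J k X Y hv⟩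
  · intro t
    fin_cases t
    · exact ⟨e1, e2⟩
    · exact ⟨e3, e4⟩
  · intro u v hne he
    rcases d1 u v hne he with h1 | h1
    · exact ⟨0, h1⟩
    · exact ⟨1, h1⟩
  · intro u v hne he
    rcases d2 u v hne he with h1 | h1
    · exact ⟨0, h1⟩
    · exact ⟨1, h1⟩

theorem t_T1 (hP : S_P1) : S_T1 := by
  intro J _ _ side x y m hs hx hy hav
  obtain ⟨X, Y, p1, p2, e1, e2, d1, d2, ha, _⟩ := hP J side x y Finset.univ ∅ (fun b => m b 0)
    (Finset.disjoint_empty_right _) (fun b => Finset.mem_univ _) (fun b => hs b 0)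
    (fun u _ v _ => hx u v) (fun u _ v _ => hy u v) hav
    (fun z hz => absurd hz (Finset.notMem_empty z))
  refine ⟨X, Y, ?_, p2, ?_, ?_, ?_, ?_⟩
  · intro u _ v _ hss
    exact p1 u (by simp) v (by simp) hss
  · intro t
    fin_cases t
    exact ⟨e1, e2⟩
  · intro u v hne he
    exact ⟨0, d1 u (by simp) v (by simp) hne he⟩
  · intro u v hne he
    exact ⟨0, d2 u (by simp) v (by simp) hne he⟩
  · intro i j p q
    exact ha i (Finset.mem_univ _) j (Finset.mem_univ _) p (Finset.mem_univ _) q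
      (Finset.mem_univ _) trivial trivial trivial

end Pool.Agent.U591.AM
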