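import Mathlib
import Pool.Agent.U591.AM.Stm

namespace Pool.Agent.U591.AM

set_option maxHeartbeats 4000000 in
theorem t_V : S_V := by
  intro J k x y h i j p q hpat
  have hpat' := hpat
  obtain ⟨h1, h2, h3, h4, h5, h6⟩ := hpat'
  have c1 : colr (k i) ≤ colr (k j) := by
    by_contra hc
    exact absurd (h.cols j i trivial (by omega)) (by linarith)
  have c2 : colr (k j) ≤ colr (k p) := by
    by_contra hc
    exact absurd (h.cols p j trivial (by omega)) (by linarith)
  have c3 : colr (k p) ≤ colr (k q) := by
    by_contra hc
    exact absurd (h.cols q p trivial (by omega)) (by linarith)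
  have r1 : rowr (k j) ≤ rowr (k q) := by
    by_contra hc
    exact absurd (h.rows q j trivial (by omega)) (by linarith)
  have r2 : rowr (k q) ≤ rowr (k i) := by
    by_contra hc
    exact absurd (h.rows i q trivial (by omega)) (by linarith)
  have r3 : rowr (k i) ≤ rowr (k p) := by
    by_contra hc
    exact absurd (h.rows p i trivial (by omega)) (by linarith)
  have hi : k i = k i := rfl
  have hj : k j = k j := rfl
  have hp : k p = k p := rfl
  have hq : k q = k q := rfl
  generalize ei : k i = ki at c1 r2 r3 hi
  generalize ej : k j = kj at c1 c2 r1 hj
  have r4 : rowr kj ≤ rowr ki := r1.trans r2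
  clear hi hj hp hq
  have c4 : colr ki ≤ colr (k p) := c1.trans c2
  cases ki <;> cases kj <;> (first | (exfalso; revert c1 r4; decide) | skip) <;>
  (generalize ep : k p = kp at c2 c3 r3 c4
   cases kp <;> (first | (exfalso; revert c2 r3 c4; decide) | skip)) <;>
  (generalize eq : k q = kq at c3 r1 r2
   cases kq <;> (first | (exfalso; revert c3 r1 r2; decide) | skip)) <;>
  (have hi := ei; have hj := ej; have hp := ep; have hq := eq
   first
    | exact h.av i j p q (hj.trans hi.symm) (hp.trans hi.symm) (hq.trans hi.symm) trivial trivial trivial hpat
    | exact h.cutA i j p q hi hj hp hq trivial trivial trivial hpat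
    | exact h.cutC i j p q hi hj hp hq trivial trivial trivial hpat
    | exact h.cutLB i j p q hi hj hp hq trivial trivial trivial hpat
    | exact h.cutLT i j p q hi hj hp hq trivial trivial trivial hpat
    | exact h.cutRB i j p q hi hj hp hq trivial trivial trivial hpat
    | exact h.cutRT i j p q hi hj hp hq trivial trivial trivial hpat
    | exact h.grpA i j p q hi hj hp hq trivial trivial trivial hpat
    | exact h.grpC i j p q hi hj hp hq trivial trivial trivial hpat
    | exact absurd (h.sepA i j p hi hj hp trivial trivial (by linarith) (by linarith)) (by linarith)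
    | exact absurd (h.sepC j p q hj hp hq trivial trivial (by linarith) (by linarith)) (by linarith)
    | exact absurd (h.z1B p i hp hi trivial) (by linarith)
    | exact absurd (h.z1B p j hp hj trivial) (by linarith)
    | exact absurd (h.z1B q j hq hj trivial) (by linarith)
    | exact absurd (h.z1T p i hp hi trivial) (by linarith)
    | exact absurd (h.z1T q j hq hj trivial) (by linarith)
    | exact absurd (h.z2LB j q i hj (Or.inl hq) hi trivial trivial (by linarith) (by linarith)) (by linarith)
    | exact absurd (h.z2LB j q i hj (Or.inr hq) hi trivial trivial (by linarith) (by linarith)) (by linarith)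
    | exact absurd (h.z2LT i j p hi hj hp trivial trivial (by linarith) (by linarith)) (by linarith)
    | exact absurd (h.z2RB j p q hj hp hq trivial trivial (by linarith) (by linarith)) (by linarith)
    | exact absurd (h.z2RT q i p hq (Or.inl hi) hp trivial trivial (by linarith) (by linarith)) (by linarith)
    | exact absurd (h.z2RT q i p hq (Or.inr hi) hp trivial trivial (by linarith) (by linarith)) (by linarith)
    | exact h.z3 i j p q hi hj hp hq trivial trivial trivial hpat)

end Pool.Agent.U591.AM
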